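import Mathlib
import Pool.Agent.Work.MP_38bc51_pr.RN.Limit
import Pool.Agent.Work.MP_38bc51_pr.FF.D401

/-!
# The limit constant: the bounds from the free-fermion sign laws
-/

namespace HC38bc51.FF

open MeasureTheory Filter HC38bc51.HC
open scoped RealInnerProductSpace

theorem main : ∃ L : ℝ,
    Tendsto (fun k : ℕ => 2 * (k : ℝ) * (1 / 2 - pcrit k)) atTop (nhds L) ∧
    2 / 3 < L ∧ L < 39 / 50 ∧
    (∀ᶠ k : ℕ in atTop, pcrit k < 1 / 2 - 1 / (3 * (k : ℝ))) ∧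
    (∀ k : ℕ, 1 ≤ k → 1 / 2 - 39 / (100 * k) < pcrit k) ∧
    (∀ m : ℕ, 1 ≤ m → (∃ Q : Measure (ℤ → Bool), SignLaw m Q ∧ (m : ℝ) * chg Q ≤ L) ∧
      ∀ Q : Measure (ℤ → Bool), SignLaw m Q → L * (1 - chg Q) ≤ m * chg Q) ∧
    ∀ (n : ℕ) (R : EuclideanSpace ℝ (Fin n) ≃ₗᵢ[ℝ] EuclideanSpace ℝ (Fin n))
      (u : EuclideanSpace ℝ (Fin n)) (γ : ℝ) (y : ℕ → ℝ), ‖u‖ = 1 → |γ| ≤ 1 →
      (∀ j ≤ n, y j = ⟪u, R^[j + 1] u⟫ -
        (1 - γ) * ∑ i ∈ Finset.range j, y i * ⟪u, R^[j - i] u⟫) →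
      ∃ Q : Measure (ℤ → Bool), SignLaw (n + 1) Q ∧ chg Q = (1 - (1 - γ ^ 2) * y n) / 2 := by
  obtain ⟨L, hL, hm, hlt, -, hk, -, -⟩ := RN.main
  have hle : L < 39 / 50 := by
    obtain ⟨Q, hQ, e⟩ := d401_law
    have h1 := (hm 401 (by norm_num)).2 Q hQ
    have hL0 : 0 < L := by linarith
    push_cast at h1
    nlinarith
  refine ⟨L, hL, hlt, hle, hk, fun k h1 => ?_, hm, fun n R u γ y hu hγ hy => ?_⟩
  · obtain ⟨L', hL', hterm, -⟩ := limit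
    have heq : L' = L := tendsto_nhds_unique hL' hL
    have h2 := hterm k h1
    rw [heq] at h2
    have hk0 : (0 : ℝ) < k := by exact_mod_cast h1
    have h3 : 1 / 2 - pcrit k < 39 / (100 * k) := by
      rw [lt_div_iff₀ (by positivity)]
      linarith
    linarith
  · exact exists_law_E R u hu hγ y hy

end HC38bc51.FF
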