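import Mathlib

/-!
# Real Clifford matrices
-/

namespace HC38bc51.FF

open Matrix

/-- `n` anticommuting symmetric matrices of square one and `n` antisymmetric ones of square minus
one, acting irreducibly. -/
structure Rep (n : ℕ) (ι : Type) [Fintype ι] [DecidableEq ι] where
  e : Fin n → Matrix ι ι ℝ
  f : Fin n → Matrix ι ι ℝ
  ee : ∀ i j, e i * e j + e j * e i = if i = j then (2 : ℝ) • 1 else 0
  ff : ∀ i j, f i * f j + f j * f i = if i = j then (-2 : ℝ) • 1 else 0
  ef : ∀ i j, e i * f j + f j * e i = 0
  et : ∀ i, (e i)ᵀ = e i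
  ft : ∀ i, (f i)ᵀ = - f i
  irr : ∀ X : Matrix ι ι ℝ, (∀ i, e i * X = X * e i) → (∀ i, f i * X = X * f i) →
    ∃ c : ℝ, X = c • 1

theorem exists_rep (n : ℕ) : ∃ (ι : Type) (_ : Fintype ι) (_ : DecidableEq ι),
    Nonempty ι ∧ Nonempty (Rep n ι) := by
  induction n with
  | zero =>
    refine ⟨Unit, inferInstance, inferInstance, inferInstance, ⟨⟨fun i => i.elim0, fun i => i.elim0,
      fun i => i.elim0, fun i => i.elim0, fun i => i.elim0, fun i => i.elim0, fun i => i.elim0,
      fun X _ _ => ⟨X () (), ?_⟩⟩⟩⟩
    ext i j
    simp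
  | succ n ih =>
    obtain ⟨ι, i1, i2, hne, ⟨R⟩⟩ := ih
    refine ⟨ι ⊕ ι, inferInstance, inferInstance, inferInstance, ⟨⟨
      Fin.cons (fromBlocks 0 1 1 0) (fun i => fromBlocks (R.e i) 0 0 (-R.e i)),
      Fin.cons (fromBlocks 0 1 (-1) 0) (fun i => fromBlocks (R.f i) 0 0 (-R.f i)),
      ?_, ?_, ?_, ?_, ?_, ?_⟩⟩⟩
    · intro i j
      refine Fin.cases ?_ (fun i => ?_) i <;> refine Fin.cases ?_ (fun j => ?_) j
      · simp [fromBlocks_multiply, fromBlocks_add, ← fromBlocks_one, fromBlocks_smul, two_smul]
      · simp [fromBlocks_multiply, fromBlocks_add, (Fin.succ_ne_zero _).symm]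
      · simp [fromBlocks_multiply, fromBlocks_add]
      · have h := R.ee i j
        by_cases hij : i = j
        · subst hij
          simp only [if_true] at h
          simp [fromBlocks_multiply, fromBlocks_add, ← fromBlocks_one, fromBlocks_smul, h]
        · simp only [hij, if_false] at h
          simp [fromBlocks_multiply, fromBlocks_add, hij, h]
    · intro i j
      refine Fin.cases ?_ (fun i => ?_) i <;> refine Fin.cases ?_ (fun j => ?_) j
      · have h2 : (-1 + -1 : Matrix ι ι ℝ) = (-2 : ℝ) • 1 := by
          rw [neg_smul, two_smul]; abel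
        simp only [Fin.cons_zero, fromBlocks_multiply, fromBlocks_add, if_true]
        rw [← fromBlocks_one, fromBlocks_smul]
        simp only [zero_mul, one_mul, zero_add, mul_one, mul_zero, add_zero, mul_neg, neg_zero,
          smul_zero, h2]
      · simp [fromBlocks_multiply, fromBlocks_add, (Fin.succ_ne_zero _).symm]
      · simp [fromBlocks_multiply, fromBlocks_add]
      · have h := R.ff i j
        by_cases hij : i = j
        · subst hij
          simp only [if_true] at h
          rw [← fromBlocks_one, fromBlocks_smul]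
          simp [fromBlocks_multiply, fromBlocks_add, h]
        · simp only [hij, if_false] at h
          simp [fromBlocks_multiply, fromBlocks_add, hij, h]
    · intro i j
      refine Fin.cases ?_ (fun i => ?_) i <;> refine Fin.cases ?_ (fun j => ?_) j
      · simp [fromBlocks_multiply, fromBlocks_add]
      · simp [fromBlocks_multiply, fromBlocks_add]
      · simp [fromBlocks_multiply, fromBlocks_add]
      · have h := R.ef i j
        simp [fromBlocks_multiply, fromBlocks_add, h]
    · intro i
      refine Fin.cases ?_ (fun i => ?_) i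
      · simp [fromBlocks_transpose]
      · simp [fromBlocks_transpose, R.et]
    · intro i
      refine Fin.cases ?_ (fun i => ?_) i
      · simp [fromBlocks_transpose, fromBlocks_neg]
      · simp [fromBlocks_transpose, fromBlocks_neg, R.ft]
    · intro X he hf
      obtain ⟨A, B, C, D, rfl⟩ : ∃ A B C D, X = fromBlocks A B C D :=
        ⟨_, _, _, _, (fromBlocks_toBlocks X).symm⟩
      have h1 := he 0
      have h2 := hf 0
      simp only [Fin.cons_zero, fromBlocks_multiply, fromBlocks_inj] at h1 h2
      simp only [zero_mul, one_mul, zero_add, mul_one, mul_zero, add_zero, neg_mul, mul_neg] at h1 h2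
      obtain ⟨a1, a2, a3, a4⟩ := h1
      obtain ⟨b1, b2, b3, b4⟩ := h2
      have hB : B = 0 := by
        have : B + B = 0 := by
          nth_rewrite 1 [← a1]
          rw [b1]; simp
        have h2B : (2 : ℝ) • B = 0 := by rw [two_smul]; exact this
        exact (smul_eq_zero.1 h2B).resolve_left (by norm_num)
      have hC : C = 0 := by rw [a1, hB]
      have hA : D = A := a2
      subst hB hC hA
      obtain ⟨c, hc⟩ := R.irr D (fun i => by
        have h3 := he i.succ
        simp only [Fin.cons_succ, fromBlocks_multiply, fromBlocks_inj] at h3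
        simpa using h3.1) (fun i => by
        have h3 := hf i.succ
        simp only [Fin.cons_succ, fromBlocks_multiply, fromBlocks_inj] at h3
        simpa using h3.1)
      refine ⟨c, ?_⟩
      rw [hc, ← fromBlocks_one, fromBlocks_smul, smul_zero]

end HC38bc51.FF
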