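import Mathlib
import Pool.Agent.Work.MP_38bc51_pr.FF.Rep

/-!
# The operators of weak measurements of products of two generators
-/

set_option linter.unusedSectionVars false

namespace HC38bc51.FF

open Matrix Finset

variable {m : ℕ} {ι : Type} [Fintype ι] [DecidableEq ι] (R : Rep (m + 1) ι)

/-- the generator of a vector -/
noncomputable def Ev (v : Fin m → ℝ) : Matrix ι ι ℝ := ∑ i, v i • R.e i.succ

theorem Ev_add (v w : Fin m → ℝ) : Ev R (v + w) = Ev R v + Ev R w := by
  simp [Ev, add_smul, sum_add_distrib]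

theorem Ev_smul (c : ℝ) (v : Fin m → ℝ) : Ev R (c • v) = c • Ev R v := by
  simp [Ev, smul_smul, smul_sum]

theorem Ev_sub (v w : Fin m → ℝ) : Ev R (v - w) = Ev R v - Ev R w := by
  simp [Ev, sub_smul, sum_sub_distrib]

theorem Ev_t (v : Fin m → ℝ) : (Ev R v)ᵀ = Ev R v := by
  simp [Ev, transpose_sum, R.et]

theorem e_Ev (i : Fin m) (v : Fin m → ℝ) :
    R.e i.succ * Ev R v = (2 * v i) • 1 - Ev R v * R.e i.succ := by
  unfold Ev
  rw [mul_sum, sum_mul, eq_sub_iff_add_eq, ← sum_add_distrib]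
  have h : ∀ j, R.e i.succ * v j • R.e j.succ + v j • R.e j.succ * R.e i.succ =
      if i = j then (2 * v i) • 1 else 0 := by
    intro j
    rw [mul_smul_comm, smul_mul_assoc, ← smul_add, R.ee]
    by_cases hij : i = j
    · subst hij
      simp [smul_smul, mul_comm]
    · have : ¬ (i.succ = j.succ) := fun h => hij (Fin.succ_injective _ h)
      simp [this, hij]
  simp only [h, sum_ite_eq, mem_univ, if_true]

theorem Ev_Ev (v w : Fin m → ℝ) :
    Ev R v * Ev R w + Ev R w * Ev R v = (2 * (v ⬝ᵥ w)) • 1 := by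
  have h : Ev R v * Ev R w = ∑ i, v i • (R.e i.succ * Ev R w) := by
    conv_lhs => rw [Ev]
    rw [sum_mul]
    simp only [smul_mul_assoc]
  have h' : Ev R w * Ev R v = ∑ i, v i • (Ev R w * R.e i.succ) := by
    conv_lhs => rw [Ev, Ev]
    rw [mul_sum]
    simp only [mul_smul_comm, Ev]
  rw [h, h', ← sum_add_distrib]
  have h2 : ∀ i, v i • (R.e i.succ * Ev R w) + v i • (Ev R w * R.e i.succ) =
      (2 * (v i * w i)) • 1 := by
    intro i
    rw [← smul_add, e_Ev, sub_add_cancel, smul_smul]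
    congr 1
    ring
  simp only [h2, ← sum_smul]
  congr 1
  rw [dotProduct, mul_sum]

theorem Ev_sq {v : Fin m → ℝ} (hv : v ⬝ᵥ v = 1) : Ev R v * Ev R v = 1 := by
  have h := Ev_Ev R v v
  rw [hv, ← two_smul ℝ] at h
  have h2 : (2 : ℝ) • (Ev R v * Ev R v) = (2 : ℝ) • (1 : Matrix ι ι ℝ) := by
    rw [h]; norm_num
  exact smul_right_injective _ (by norm_num : (2 : ℝ) ≠ 0) h2

theorem Ev_f (v : Fin m → ℝ) (k : Fin (m + 1)) : Ev R v * R.f k = - (R.f k * Ev R v) := by
  unfold Ev
  rw [sum_mul, mul_sum, ← sum_neg_distrib]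
  refine sum_congr rfl fun i _ => ?_
  rw [smul_mul_assoc, mul_smul_comm, ← smul_neg]
  congr 1
  rw [eq_neg_iff_add_eq_zero]
  exact R.ef _ _

theorem f_sq (k : Fin (m + 1)) : R.f k * R.f k = -1 := by
  have h := R.ff k k
  simp only [if_true] at h
  rw [← two_smul ℝ] at h
  have h2 : (2 : ℝ) • (R.f k * R.f k) = (2 : ℝ) • (-1 : Matrix ι ι ℝ) := by
    rw [h]; simp
  exact smul_right_injective _ (by norm_num : (2 : ℝ) ≠ 0) h2

theorem e_sq (k : Fin (m + 1)) : R.e k * R.e k = 1 := by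
  have h := R.ee k k
  simp only [if_true] at h
  rw [← two_smul ℝ] at h
  have h2 : (2 : ℝ) • (R.e k * R.e k) = (2 : ℝ) • (1 : Matrix ι ι ℝ) := by
    rw [h]
  exact smul_right_injective _ (by norm_num : (2 : ℝ) ≠ 0) h2

theorem f_ne {k l : Fin (m + 1)} (h : k ≠ l) : R.f k * R.f l = - (R.f l * R.f k) := by
  have h1 := R.ff k l
  simp only [h, if_false] at h1
  exact eq_neg_of_add_eq_zero_left h1

theorem h_Ev (v : Fin m → ℝ) : R.e 0 * Ev R v = - (Ev R v * R.e 0) := by
  unfold Ev
  rw [sum_mul, mul_sum, ← sum_neg_distrib]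
  refine sum_congr rfl fun i _ => ?_
  rw [smul_mul_assoc, mul_smul_comm, ← smul_neg]
  congr 1
  have h1 := R.ee 0 i.succ
  simp only [(Fin.succ_ne_zero i).symm, if_false] at h1
  exact eq_neg_of_add_eq_zero_left h1

theorem h_f (k : Fin (m + 1)) : R.e 0 * R.f k = - (R.f k * R.e 0) :=
  eq_neg_of_add_eq_zero_left (R.ef _ _)

/-- the measured product -/
noncomputable def Mo (v : Fin m → ℝ) (k : Fin (m + 1)) : Matrix ι ι ℝ := Ev R v * R.f k

theorem Mo_t (v : Fin m → ℝ) (k : Fin (m + 1)) : (Mo R v k)ᵀ = Mo R v k := by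
  unfold Mo
  rw [transpose_mul, Ev_t, R.ft, neg_mul, Ev_f]

theorem Mo_sq {v : Fin m → ℝ} (hv : v ⬝ᵥ v = 1) (k : Fin (m + 1)) : Mo R v k * Mo R v k = 1 := by
  unfold Mo
  calc Ev R v * R.f k * (Ev R v * R.f k) = Ev R v * (R.f k * Ev R v) * R.f k := by
        simp only [mul_assoc]
    _ = - (Ev R v * Ev R v * (R.f k * R.f k)) := by
        have h : R.f k * Ev R v = - (Ev R v * R.f k) := by rw [Ev_f, neg_neg]
        rw [h]
        simp only [mul_assoc, mul_neg, neg_mul]
    _ = 1 := by rw [Ev_sq R hv, f_sq]; simp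

theorem e_Mo (i : Fin m) (v : Fin m → ℝ) (k : Fin (m + 1)) :
    R.e i.succ * Mo R v k = Mo R v k * R.e i.succ + (2 * v i) • R.f k := by
  unfold Mo
  rw [← mul_assoc, e_Ev, sub_mul, smul_mul_assoc, one_mul]
  have h : R.e i.succ * R.f k = - (R.f k * R.e i.succ) := eq_neg_of_add_eq_zero_left (R.ef _ _)
  rw [mul_assoc, h, mul_neg, mul_assoc]
  abel

theorem f_Mo_ne {k l : Fin (m + 1)} (h : l ≠ k) (v : Fin m → ℝ) :
    R.f l * Mo R v k = Mo R v k * R.f l := by
  unfold Mo
  have h1 : R.f l * Ev R v = - (Ev R v * R.f l) := by rw [Ev_f, neg_neg]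
  rw [← mul_assoc, h1, neg_mul, mul_assoc, f_ne R h, mul_neg, neg_neg, mul_assoc]

theorem f_Mo (k : Fin (m + 1)) (v : Fin m → ℝ) : R.f k * Mo R v k = Ev R v := by
  unfold Mo
  have h1 : R.f k * Ev R v = - (Ev R v * R.f k) := by rw [Ev_f, neg_neg]
  rw [← mul_assoc, h1, neg_mul, mul_assoc, f_sq]
  simp

theorem Mo_f (k : Fin (m + 1)) (v : Fin m → ℝ) : Mo R v k * R.f k = - Ev R v := by
  unfold Mo
  rw [mul_assoc, f_sq]
  simp

theorem h_Mo (k : Fin (m + 1)) (v : Fin m → ℝ) : R.e 0 * Mo R v k = Mo R v k * R.e 0 := by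
  unfold Mo
  rw [← mul_assoc, h_Ev, neg_mul, mul_assoc, h_f, mul_neg, neg_neg, mul_assoc]

theorem Ev_Mo {v : Fin m → ℝ} (hv : v ⬝ᵥ v = 1) (k : Fin (m + 1)) :
    Ev R v * Mo R v k = R.f k := by
  unfold Mo
  rw [← mul_assoc, Ev_sq R hv, one_mul]

theorem Mo_Ev {v : Fin m → ℝ} (hv : v ⬝ᵥ v = 1) (k : Fin (m + 1)) :
    Mo R v k * Ev R v = - R.f k := by
  unfold Mo
  have h1 : R.f k * Ev R v = - (Ev R v * R.f k) := by rw [Ev_f, neg_neg]
  rw [mul_assoc, h1, mul_neg, ← mul_assoc, Ev_sq R hv, one_mul]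

/-- the part of the Casimir operator with the symmetric generators -/
noncomputable def NE (X : Matrix ι ι ℝ) : Matrix ι ι ℝ := ∑ i : Fin m, R.e i.succ * X * R.e i.succ

/-- the part of the Casimir operator with the antisymmetric generators -/
noncomputable def NF (X : Matrix ι ι ℝ) : Matrix ι ι ℝ := ∑ k, R.f k * X * R.f k

theorem NE_left (v : Fin m → ℝ) (k : Fin (m + 1)) (X : Matrix ι ι ℝ) :
    NE R (Mo R v k * X) = Mo R v k * NE R X + (2 : ℝ) • (R.f k * X * Ev R v) := by
  unfold NE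
  rw [mul_sum]
  have h : ∀ i : Fin m, R.e i.succ * (Mo R v k * X) * R.e i.succ =
      Mo R v k * (R.e i.succ * X * R.e i.succ) + (2 : ℝ) • (R.f k * X * (v i • R.e i.succ)) := by
    intro i
    rw [← mul_assoc (R.e i.succ) (Mo R v k) X, e_Mo, add_mul, add_mul]
    congr 1
    · simp only [mul_assoc]
    · rw [smul_mul_assoc, smul_mul_assoc, mul_smul_comm, smul_smul]
  simp only [h, sum_add_distrib, ← smul_sum, ← mul_sum]
  rfl

theorem NE_right (v : Fin m → ℝ) (k : Fin (m + 1)) (X : Matrix ι ι ℝ) :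
    NE R (X * Mo R v k) = NE R X * Mo R v k - (2 : ℝ) • (Ev R v * X * R.f k) := by
  unfold NE
  rw [sum_mul]
  have h : ∀ i : Fin m, R.e i.succ * (X * Mo R v k) * R.e i.succ =
      R.e i.succ * X * R.e i.succ * Mo R v k - (2 : ℝ) • ((v i • R.e i.succ) * X * R.f k) := by
    intro i
    have h1 : Mo R v k * R.e i.succ = R.e i.succ * Mo R v k - (2 * v i) • R.f k := by
      rw [e_Mo]; abel
    rw [mul_assoc (R.e i.succ), mul_assoc X, h1, mul_sub, mul_sub]
    congr 1
    · simp only [mul_assoc]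
    · rw [mul_smul_comm, mul_smul_comm, smul_mul_assoc, smul_mul_assoc, smul_smul, mul_assoc]
  simp only [h, sum_sub_distrib, ← smul_sum, ← sum_mul]
  rfl

theorem NF_left (v : Fin m → ℝ) (k : Fin (m + 1)) (X : Matrix ι ι ℝ) :
    NF R (Mo R v k * X) = Mo R v k * NF R X + (2 : ℝ) • (Ev R v * X * R.f k) := by
  unfold NF
  rw [mul_sum]
  have h : ∀ l, R.f l * (Mo R v k * X) * R.f l =
      Mo R v k * (R.f l * X * R.f l) + if l = k then (2 : ℝ) • (Ev R v * X * R.f k) else 0 := by
    intro l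
    by_cases hl : l = k
    · subst hl
      simp only [if_true]
      rw [← mul_assoc (R.f l) (Mo R v l) X, f_Mo, ← mul_assoc (Mo R v l), ← mul_assoc (Mo R v l),
        Mo_f, two_smul]
      simp only [neg_mul]
      abel
    · simp only [hl, if_false, add_zero]
      rw [← mul_assoc (R.f l) (Mo R v k) X, f_Mo_ne R hl]
      simp only [mul_assoc]
  simp only [h, sum_add_distrib, sum_ite_eq', mem_univ, if_true]

theorem NF_right (v : Fin m → ℝ) (k : Fin (m + 1)) (X : Matrix ι ι ℝ) :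
    NF R (X * Mo R v k) = NF R X * Mo R v k - (2 : ℝ) • (R.f k * X * Ev R v) := by
  unfold NF
  rw [sum_mul]
  have h : ∀ l, R.f l * (X * Mo R v k) * R.f l =
      R.f l * X * R.f l * Mo R v k - if l = k then (2 : ℝ) • (R.f k * X * Ev R v) else 0 := by
    intro l
    by_cases hl : l = k
    · subst hl
      simp only [if_true]
      rw [mul_assoc (R.f l) (X * Mo R v l), mul_assoc X, Mo_f, mul_assoc (R.f l * X), f_Mo, two_smul]
      simp only [mul_neg, mul_assoc]
      abel
    · simp only [hl, if_false, sub_zero]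
      rw [mul_assoc (R.f l) (X * Mo R v k), mul_assoc X, ← f_Mo_ne R hl]
      simp only [mul_assoc]
  simp only [h, sum_sub_distrib, sum_ite_eq', mem_univ, if_true]

theorem NE_both {v : Fin m → ℝ} (hv : v ⬝ᵥ v = 1) (k : Fin (m + 1)) (X : Matrix ι ι ℝ) :
    NE R (Mo R v k * X * Mo R v k) = Mo R v k * NE R X * Mo R v k := by
  rw [NE_right, NE_left, add_mul]
  have h1 : R.f k * X * Ev R v * Mo R v k = R.f k * X * R.f k := by
    rw [mul_assoc, Ev_Mo R hv]
  have h2 : Ev R v * (Mo R v k * X) * R.f k = R.f k * X * R.f k := by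
    rw [← mul_assoc, Ev_Mo R hv]
  rw [smul_mul_assoc, h1, h2]
  abel

theorem NF_both {v : Fin m → ℝ} (k : Fin (m + 1)) (X : Matrix ι ι ℝ) :
    NF R (Mo R v k * X * Mo R v k) = Mo R v k * NF R X * Mo R v k := by
  rw [NF_right, NF_left, add_mul]
  have h1 : Ev R v * X * R.f k * Mo R v k = Ev R v * X * Ev R v := by
    rw [mul_assoc, f_Mo]
  have h2 : R.f k * (Mo R v k * X) * Ev R v = Ev R v * X * Ev R v := by
    rw [← mul_assoc, f_Mo]
  rw [smul_mul_assoc, h1, h2]
  abel

theorem NE_add (X Y : Matrix ι ι ℝ) : NE R (X + Y) = NE R X + NE R Y := by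
  simp [NE, mul_add, add_mul, sum_add_distrib]

theorem NE_smul (c : ℝ) (X : Matrix ι ι ℝ) : NE R (c • X) = c • NE R X := by
  simp [NE, smul_sum]

theorem NF_add (X Y : Matrix ι ι ℝ) : NF R (X + Y) = NF R X + NF R Y := by
  simp [NF, mul_add, add_mul, sum_add_distrib]

theorem NF_smul (c : ℝ) (X : Matrix ι ι ℝ) : NF R (c • X) = c • NF R X := by
  simp [NF, smul_sum]

/-- the weighted operator -/
noncomputable def Jo (a b : ℝ) (M X : Matrix ι ι ℝ) : Matrix ι ι ℝ := (2 * a * b) • (M * X + X * M)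

/-- the average operator -/
noncomputable def Do (a b : ℝ) (M X : Matrix ι ι ℝ) : Matrix ι ι ℝ :=
  (2 * a ^ 2) • X + (2 * b ^ 2) • (M * X * M)

/-- The invariants of the states; `s k` is the parity of the generator `f k`. -/
structure Inv (s : Fin (m + 1) → ℝ) (X : Matrix ι ι ℝ) : Prop where
  cas : NE R X + NF R X = - X
  hX : R.e 0 * X = X * R.e 0
  fX : ∀ k, R.f k * X = s k • (X * R.f k)

theorem Inv_one : Inv R (fun _ => 1) (1 : Matrix ι ι ℝ) := by
  refine ⟨?_, by simp, by simp⟩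
  have h1 : NE R (1 : Matrix ι ι ℝ) = (m : ℝ) • 1 := by
    unfold NE
    simp only [mul_one, e_sq, sum_const, card_univ, Fintype.card_fin]
    rw [← Nat.cast_smul_eq_nsmul ℝ]
  have h2 : NF R (1 : Matrix ι ι ℝ) = (m + 1 : ℝ) • (-1) := by
    unfold NF
    simp only [mul_one, f_sq, sum_const, card_univ, Fintype.card_fin]
    rw [← Nat.cast_smul_eq_nsmul ℝ]
    push_cast
    rfl
  rw [h1, h2, smul_neg, add_smul, one_smul]
  abel

variable {R}

theorem Inv_Jo {s : Fin (m + 1) → ℝ} {X : Matrix ι ι ℝ} (h : Inv R s X) (a b : ℝ)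
    (v : Fin m → ℝ) (k : Fin (m + 1)) :
    Inv R (Function.update s k (- s k)) (Jo a b (Mo R v k) X) := by
  refine ⟨?_, ?_, fun l => ?_⟩
  · unfold Jo
    rw [NE_smul, NF_smul, ← smul_add, ← smul_neg]
    congr 1
    rw [NE_add, NF_add, NE_left, NE_right, NF_left, NF_right]
    have h1 : Mo R v k * NE R X + Mo R v k * NF R X = - (Mo R v k * X) := by
      rw [← mul_add, h.cas, mul_neg]
    have h2 : NE R X * Mo R v k + NF R X * Mo R v k = - (X * Mo R v k) := by
      rw [← add_mul, h.cas, neg_mul]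
    calc _ = (Mo R v k * NE R X + Mo R v k * NF R X) + (NE R X * Mo R v k + NF R X * Mo R v k) := by
          abel
      _ = _ := by rw [h1, h2]; abel
  · unfold Jo
    rw [mul_smul_comm, smul_mul_assoc]
    congr 1
    rw [mul_add, add_mul, ← mul_assoc, h_Mo, mul_assoc, h.hX, ← mul_assoc, ← mul_assoc, h.hX,
      mul_assoc X, h_Mo, mul_assoc X]
  · unfold Jo
    by_cases hl : l = k
    · subst hl
      rw [Function.update_self, mul_smul_comm, smul_mul_assoc, smul_comm]
      congr 1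
      have h1 : R.f l * Mo R v l = - (Mo R v l * R.f l) := by rw [f_Mo, Mo_f, neg_neg]
      have h2 : Mo R v l * R.f l = - (R.f l * Mo R v l) := by rw [f_Mo, Mo_f]
      rw [mul_add, add_mul, ← mul_assoc, h1, neg_mul, mul_assoc, h.fX, ← mul_assoc, h.fX,
        smul_mul_assoc, mul_assoc X (R.f l), h1, mul_smul_comm, smul_add, neg_smul, neg_smul,
        mul_assoc, mul_assoc, mul_neg, smul_neg]
    · rw [Function.update_of_ne hl, mul_smul_comm, smul_mul_assoc, smul_comm]
      congr 1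
      rw [mul_add, add_mul, ← mul_assoc, f_Mo_ne R hl, mul_assoc, h.fX, ← mul_assoc, h.fX,
        smul_mul_assoc, mul_assoc X (R.f l), f_Mo_ne R hl, mul_smul_comm, smul_add,
        mul_assoc, mul_assoc]

theorem Inv_Do {s : Fin (m + 1) → ℝ} {X : Matrix ι ι ℝ} (h : Inv R s X) (a b : ℝ)
    {v : Fin m → ℝ} (hv : v ⬝ᵥ v = 1) (k : Fin (m + 1)) :
    Inv R s (Do a b (Mo R v k) X) := by
  refine ⟨?_, ?_, fun l => ?_⟩
  · unfold Do
    rw [NE_add, NF_add, NE_smul, NF_smul, NE_smul, NF_smul, NE_both R hv, NF_both]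
    have h1 : Mo R v k * NE R X * Mo R v k + Mo R v k * NF R X * Mo R v k =
        - (Mo R v k * X * Mo R v k) := by
      rw [← add_mul, ← mul_add, h.cas, mul_neg, neg_mul]
    calc _ = (2 * a ^ 2) • (NE R X + NF R X) + (2 * b ^ 2) •
          (Mo R v k * NE R X * Mo R v k + Mo R v k * NF R X * Mo R v k) := by
            rw [smul_add, smul_add]; abel
      _ = _ := by rw [h1, h.cas, smul_neg, smul_neg]; abel
  · unfold Do
    rw [mul_add, add_mul, mul_smul_comm, mul_smul_comm, smul_mul_assoc, smul_mul_assoc, h.hX]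
    congr 2
    rw [← mul_assoc, ← mul_assoc, h_Mo, mul_assoc (Mo R v k), h.hX, mul_assoc, mul_assoc, mul_assoc,
      h_Mo]
    simp only [mul_assoc]
  · unfold Do
    rw [mul_add, add_mul, mul_smul_comm, mul_smul_comm, smul_mul_assoc, smul_mul_assoc, h.fX,
      smul_add, smul_comm (s l), smul_comm (s l)]
    congr 2
    by_cases hl : l = k
    · subst hl
      have h1 : R.f l * Mo R v l = - (Mo R v l * R.f l) := by rw [f_Mo, Mo_f, neg_neg]
      calc R.f l * (Mo R v l * X * Mo R v l) = (R.f l * Mo R v l) * X * Mo R v l := by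
            simp only [mul_assoc]
        _ = - (Mo R v l * (R.f l * X) * Mo R v l) := by
            rw [h1]; simp only [neg_mul, mul_assoc]
        _ = - (s l • (Mo R v l * X * (R.f l * Mo R v l))) := by
            rw [h.fX]; simp only [mul_smul_comm, smul_mul_assoc, mul_assoc]
        _ = s l • (Mo R v l * X * Mo R v l * R.f l) := by
            rw [h1]; simp only [mul_neg, smul_neg, neg_neg, mul_assoc]
    · have h1 := f_Mo_ne R hl v
      calc R.f l * (Mo R v k * X * Mo R v k) = (R.f l * Mo R v k) * X * Mo R v k := by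
            simp only [mul_assoc]
        _ = Mo R v k * (R.f l * X) * Mo R v k := by
            rw [h1]; simp only [mul_assoc]
        _ = s l • (Mo R v k * X * (R.f l * Mo R v k)) := by
            rw [h.fX]; simp only [mul_smul_comm, smul_mul_assoc, mul_assoc]
        _ = s l • (Mo R v k * X * Mo R v k * R.f l) := by
            rw [h1]; simp only [mul_assoc]

/-- the square of the norm -/
noncomputable def nn (X : Matrix ι ι ℝ) : ℝ := (X * Xᵀ).trace

theorem nn_nonneg (X : Matrix ι ι ℝ) : 0 ≤ nn X := by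
  unfold nn
  simp only [trace, diag_apply, mul_apply, transpose_apply]
  exact sum_nonneg fun i _ => sum_nonneg fun j _ => mul_self_nonneg _

theorem nn_zero {X : Matrix ι ι ℝ} (h : nn X = 0) : X = 0 := by
  unfold nn at h
  simp only [trace, diag_apply, mul_apply, transpose_apply] at h
  have h1 := (sum_eq_zero_iff_of_nonneg fun i _ => sum_nonneg fun j _ => mul_self_nonneg (X i j)).1 h
  ext i j
  have h2 := (sum_eq_zero_iff_of_nonneg fun j _ => mul_self_nonneg (X i j)).1 (h1 i (mem_univ i))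
  exact mul_self_eq_zero.1 (h2 j (mem_univ j))

theorem sum_nn (X : Matrix ι ι ℝ) {t c : ℝ} (hN : NE R X = t • X) :
    ∑ i : Fin m, nn (R.e i.succ * X * R.e i.succ + c • X) =
      (m * (1 + c ^ 2) + 2 * c * t) * nn X := by
  have h : ∀ i : Fin m, nn (R.e i.succ * X * R.e i.succ + c • X) =
      (1 + c ^ 2) * nn X + 2 * c * ((R.e i.succ * X * R.e i.succ) * Xᵀ).trace := by
    intro i
    have e1 : (R.e i.succ * X * R.e i.succ)ᵀ = R.e i.succ * Xᵀ * R.e i.succ := by
      rw [transpose_mul, transpose_mul, R.et, ← mul_assoc]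
    have e2 : (R.e i.succ * X * R.e i.succ * (R.e i.succ * Xᵀ * R.e i.succ)).trace = nn X := by
      calc (R.e i.succ * X * R.e i.succ * (R.e i.succ * Xᵀ * R.e i.succ)).trace
          = (R.e i.succ * (X * (R.e i.succ * R.e i.succ) * Xᵀ * R.e i.succ)).trace := by
            simp only [mul_assoc]
        _ = nn X := by
            rw [trace_mul_comm, e_sq]
            simp only [mul_assoc, mul_one]
            rw [e_sq, mul_one]
            rfl
    have e3 : (X * (R.e i.succ * Xᵀ * R.e i.succ)).trace =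
        (R.e i.succ * X * R.e i.succ * Xᵀ).trace := by
      rw [← trace_transpose, transpose_mul, transpose_mul, transpose_mul, transpose_transpose, R.et]
      simp only [mul_assoc]
    unfold nn
    rw [transpose_add, transpose_smul, e1, add_mul, mul_add, mul_add, trace_add, trace_add,
      trace_add, e2, smul_mul_assoc, smul_mul_assoc, mul_smul_comm, mul_smul_comm, trace_smul,
      trace_smul, trace_smul, trace_smul, e3]
    simp only [smul_eq_mul]
    unfold nn
    ring
  have h2 : ∑ i : Fin m, ((R.e i.succ * X * R.e i.succ) * Xᵀ).trace = t * nn X := by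
    rw [← trace_sum, ← sum_mul]
    change (NE R X * Xᵀ).trace = _
    rw [hN, smul_mul_assoc, trace_smul]
    rfl
  simp only [h, sum_add_distrib, sum_const, card_univ, Fintype.card_fin, ← mul_sum, h2, nsmul_eq_mul]
  ring

theorem NF_of {X : Matrix ι ι ℝ} {c : ℝ} (h : ∀ k, R.f k * X = c • (X * R.f k)) :
    NF R X = (-(c * (m + 1))) • X := by
  unfold NF
  have h1 : ∀ k, R.f k * X * R.f k = (-c) • X := by
    intro k
    rw [h, smul_mul_assoc, mul_assoc, f_sq]
    simp
  simp only [h1, sum_const, card_univ, Fintype.card_fin]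
  rw [← Nat.cast_smul_eq_nsmul ℝ, smul_smul]
  congr 1
  push_cast
  ring

/-- A state in which all parities are even is a scalar. -/
theorem Inv_even {X : Matrix ι ι ℝ} (h : Inv R (fun _ => 1) X) : ∃ c : ℝ, X = c • 1 := by
  have h1 := NF_of (c := 1) h.fX
  have h2 : NE R X = (m : ℝ) • X := by
    have h3 := h.cas
    rw [h1] at h3
    have h4 : NE R X = - X - (-(1 * ((m : ℝ) + 1))) • X := by
      rw [← h3]; abel
    rw [h4]
    simp only [one_mul, neg_smul, add_smul, one_smul]
    abel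
  have h3 := sum_nn (R := R) X (c := -1) h2
  have h4 : ∑ i : Fin m, nn (R.e i.succ * X * R.e i.succ + (-1 : ℝ) • X) = 0 := by
    rw [h3]; ring
  have h5 := (sum_eq_zero_iff_of_nonneg fun i _ => nn_nonneg _).1 h4
  refine R.irr X (fun i => ?_) (fun k => by rw [h.fX]; simp)
  refine Fin.cases h.hX (fun i => ?_) i
  have h6 := nn_zero (h5 i (mem_univ i))
  have h7 : R.e i.succ * X * R.e i.succ = X := by
    rw [neg_smul, one_smul] at h6
    exact eq_of_sub_eq_zero (by rw [sub_eq_add_neg]; exact h6)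
  calc R.e i.succ * X = R.e i.succ * X * (R.e i.succ * R.e i.succ) := by rw [e_sq, mul_one]
    _ = (R.e i.succ * X * R.e i.succ) * R.e i.succ := by simp only [mul_assoc]
    _ = X * R.e i.succ := by rw [h7]

/-- A state in which all parities are odd vanishes. -/
theorem Inv_odd {X : Matrix ι ι ℝ} (h : Inv R (fun _ => -1) X) : X = 0 := by
  have h1 := NF_of (c := -1) h.fX
  have h2 : NE R X = (-((m : ℝ) + 2)) • X := by
    have h3 := h.cas
    rw [h1] at h3
    have h4 : NE R X = - X - (-(-1 * ((m : ℝ) + 1))) • X := by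
      rw [← h3]; abel
    rw [h4, ← neg_one_smul ℝ X, ← sub_smul]
    congr 1
    ring
  have h3 := sum_nn (R := R) X (c := 1) h2
  have h4 : 0 ≤ ∑ i : Fin m, nn (R.e i.succ * X * R.e i.succ + (1 : ℝ) • X) :=
    sum_nonneg fun i _ => nn_nonneg _
  rw [h3] at h4
  have h5 := nn_nonneg X
  exact nn_zero (by nlinarith)

end HC38bc51.FF
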