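import Mathlib
import Pool.Agent.Work.MP_38bc51_pr.FF.Ops

/-!
# The moments of the sign law
-/

set_option linter.unusedSectionVars false

namespace HC38bc51.FF

open Matrix Finset

/-- the residue -/
def ix (m i : ℕ) : Fin (m + 1) := ⟨i % (m + 1), Nat.mod_lt _ (Nat.succ_pos _)⟩

/-- A sequence of measurements. -/
structure Meas (m : ℕ) (ι : Type) [Fintype ι] [DecidableEq ι] where
  R : Rep (m + 1) ι
  u : ℕ → Fin m → ℝ
  hu : ∀ i, u i ⬝ᵥ u i = 1
  a : ℝ
  b : ℝ
  hab : a ^ 2 + b ^ 2 = 1 / 2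
  O : Matrix ι ι ℝ
  hO : O * Oᵀ = 1
  hO' : Oᵀ * O = 1
  shift : ∀ i, O * Mo R (u i) (ix m i) * Oᵀ = Mo R (u (i + 1)) (ix m (i + 1))

variable {m : ℕ} {ι : Type} [Fintype ι] [DecidableEq ι] (D : Meas m ι)

/-- the measured operator at time `i` -/
noncomputable def Meas.M (i : ℕ) : Matrix ι ι ℝ := Mo D.R (D.u i) (ix m i)

theorem Meas.M_sq (i : ℕ) : D.M i * D.M i = 1 := Mo_sq _ (D.hu i) _

theorem Meas.M_t (i : ℕ) : (D.M i)ᵀ = D.M i := Mo_t _ _ _

/-- the states -/
noncomputable def Meas.X (I : ℕ → Prop) [DecidablePred I] : ℕ → Matrix ι ι ℝ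
  | 0 => 1
  | n + 1 => if I n then Jo D.a D.b (D.M n) (Meas.X I n) else Do D.a D.b (D.M n) (Meas.X I n)

/-- the parities -/
noncomputable def sgn (m : ℕ) (I : ℕ → Prop) [DecidablePred I] (n : ℕ) (k : Fin (m + 1)) : ℝ :=
  ∏ i ∈ range n, if I i ∧ ix m i = k then -1 else 1

theorem sgn_succ (I : ℕ → Prop) [DecidablePred I] (n : ℕ) :
    sgn m I (n + 1) = if I n then Function.update (sgn m I n) (ix m n) (- sgn m I n (ix m n))
      else sgn m I n := by
  funext k
  by_cases h : I n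
  · simp only [h, if_true, sgn, prod_range_succ, true_and]
    by_cases hk : ix m n = k
    · subst hk
      simp [sgn]
    · rw [if_neg hk, mul_one, Function.update_of_ne (fun h => hk h.symm)]
      rfl
  · simp [h, sgn, prod_range_succ]

theorem Meas.inv (I : ℕ → Prop) [DecidablePred I] (n : ℕ) : Inv D.R (sgn m I n) (D.X I n) := by
  induction n with
  | zero =>
    have h : sgn m I 0 = fun _ => 1 := by funext k; simp [sgn]
    rw [h]
    exact Inv_one D.R
  | succ n ih =>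
    rw [sgn_succ, Meas.X]
    by_cases h : I n
    · simp only [h, if_true]
      exact Inv_Jo ih _ _ _ _
    · simp only [h, if_false]
      exact Inv_Do ih _ _ (D.hu n) _

theorem Meas.Do_smul_one (c : ℝ) (i : ℕ) : Do D.a D.b (D.M i) (c • 1) = c • 1 := by
  unfold Do
  have h := D.hab
  rw [mul_smul_comm, smul_mul_assoc, mul_one, D.M_sq, ← add_smul]
  have : (2 : ℝ) * D.a ^ 2 + 2 * D.b ^ 2 = 1 := by linarith
  rw [this, one_smul]

/-- the number of blocks of `A` which contain `i` -/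
def cnt (m : ℕ) (A : Finset ℕ) (i : ℕ) : ℕ := (A.filter fun a => a ≤ i ∧ i < a + (m + 1)).card

/-- the symmetric difference of the blocks -/
def IA (m : ℕ) (A : Finset ℕ) (i : ℕ) : Prop := Odd (cnt m A i)

instance (m : ℕ) (A : Finset ℕ) : DecidablePred (IA m A) := fun i => by
  unfold IA; infer_instance

theorem neg_pow_if (n : ℕ) : (-1 : ℝ) ^ n = if Odd n then -1 else 1 := by
  split_ifs with h
  · exact h.neg_one_pow
  · exact (Nat.not_odd_iff_even.1 h).neg_one_pow

theorem prod_neg_filter (A : Finset ℕ) (p : ℕ → Prop) [DecidablePred p] :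
    ∏ a ∈ A, (if p a then (-1 : ℝ) else 1) = (-1) ^ (A.filter p).card := by
  rw [prod_ite]
  simp

theorem block_unique (m a : ℕ) (k : Fin (m + 1)) : ∃ i₀, a ≤ i₀ ∧ i₀ < a + (m + 1) ∧ ix m i₀ = k ∧
    ∀ i, a ≤ i → i < a + (m + 1) → ix m i = k → i = i₀ := by
  obtain ⟨k, hk⟩ := k
  obtain ⟨r, hr, key⟩ : ∃ r, r < m + 1 ∧ (a + r) % (m + 1) = k := by
    refine ⟨(k + (m + 1 - a % (m + 1))) % (m + 1), Nat.mod_lt _ (by omega), ?_⟩
    have h1 : a % (m + 1) < m + 1 := Nat.mod_lt _ (Nat.succ_pos _)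
    have h2 := Nat.div_add_mod a (m + 1)
    rw [Nat.add_mod_mod]
    have e : a + (k + (m + 1 - a % (m + 1))) = k + (m + 1) * (a / (m + 1) + 1) := by
      rw [Nat.mul_add, mul_one]
      omega
    rw [e, Nat.add_mul_mod_self_left, Nat.mod_eq_of_lt hk]
  refine ⟨a + r, Nat.le_add_right _ _, by omega, Fin.ext key, ?_⟩
  intro i hi1 hi2 hik
  have h3 : i % (m + 1) = k := congrArg Fin.val hik
  have h4 : i ≡ a + r [MOD (m + 1)] := by
    rw [Nat.ModEq, h3, key]
  refine h4.eq_of_abs_lt ?_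
  rw [abs_lt]
  constructor <;> push_cast <;> omega

theorem sgn_done {A : Finset ℕ} {n : ℕ} (h : ∀ a ∈ A, a + (m + 1) ≤ n) (k : Fin (m + 1)) :
    sgn m (IA m A) n k = (-1) ^ A.card := by
  have h1 : ∀ i, (if IA m A i ∧ ix m i = k then (-1 : ℝ) else 1) =
      ∏ a ∈ A, if (a ≤ i ∧ i < a + (m + 1)) ∧ ix m i = k then (-1 : ℝ) else 1 := by
    intro i
    by_cases hk : ix m i = k
    · simp only [hk, and_true]
      rw [prod_neg_filter, neg_pow_if]
      rfl
    · simp [hk]
  unfold sgn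
  simp only [h1]
  rw [prod_comm]
  have h2 : ∀ a ∈ A, (∏ i ∈ range n, if (a ≤ i ∧ i < a + (m + 1)) ∧ ix m i = k then (-1 : ℝ) else 1)
      = -1 := by
    intro a ha
    obtain ⟨i₀, b1, b2, b3, b4⟩ := block_unique m a k
    rw [prod_eq_single i₀]
    · simp [b1, b2, b3]
    · intro i _ hne
      rw [if_neg]
      rintro ⟨⟨c1, c2⟩, c3⟩
      exact hne (b4 i c1 c2 c3)
    · intro hn
      exfalso
      apply hn
      rw [mem_range]
      have := h a ha
      omega
  rw [prod_congr rfl h2, prod_const]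

theorem Meas.done {A : Finset ℕ} {n : ℕ} (h : ∀ a ∈ A, a + (m + 1) ≤ n) :
    ∃ c : ℝ, D.X (IA m A) n = c • 1 ∧ (Odd A.card → c = 0) := by
  have hi := D.inv (IA m A) n
  have hs : sgn m (IA m A) n = fun _ => (-1 : ℝ) ^ A.card := by
    funext k; exact sgn_done h k
  rw [hs] at hi
  by_cases hodd : Odd A.card
  · rw [hodd.neg_one_pow] at hi
    exact ⟨0, by rw [Inv_odd hi, zero_smul], fun _ => rfl⟩
  · rw [(Nat.not_odd_iff_even.1 hodd).neg_one_pow] at hi
    obtain ⟨c, hc⟩ := Inv_even hi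
    exact ⟨c, hc, fun h => absurd h hodd⟩

theorem cnt_zero {A : Finset ℕ} {n : ℕ} (h : ∀ a ∈ A, a + (m + 1) ≤ n ∨ n < a) : cnt m A n = 0 := by
  unfold cnt
  rw [card_eq_zero, filter_eq_empty_iff]
  rintro a ha ⟨h1, h2⟩
  rcases h a ha with h3 | h3 <;> omega

theorem not_IA {A : Finset ℕ} {n : ℕ} (h : ∀ a ∈ A, a + (m + 1) ≤ n ∨ n < a) : ¬ IA m A n := by
  unfold IA
  rw [cnt_zero h]
  decide

theorem Meas.persist {A : Finset ℕ} {n : ℕ} (h : ∀ a ∈ A, a + (m + 1) ≤ n) {c : ℝ}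
    (hc : D.X (IA m A) n = c • 1) {n' : ℕ} (hn : n ≤ n') : D.X (IA m A) n' = c • 1 := by
  induction n', hn using Nat.le_induction with
  | base => exact hc
  | succ n' hn ih =>
    have h1 : ¬ IA m A n' := not_IA fun a ha => Or.inl ((h a ha).trans hn)
    rw [Meas.X, if_neg h1, ih, D.Do_smul_one]

/-- the moments -/
noncomputable def Meas.chi (A : Finset ℕ) : ℝ :=
  (D.X (IA m A) (A.sup id + (m + 1))).trace / Fintype.card ι

theorem trace_scalar [Nonempty ι] (c : ℝ) :
    ((c • (1 : Matrix ι ι ℝ)).trace) / Fintype.card ι = c := by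
  have h : (Fintype.card ι : ℝ) ≠ 0 := by
    exact_mod_cast Fintype.card_ne_zero
  rw [trace_smul, trace_one, smul_eq_mul]
  field_simp

theorem Meas.chi_spec [Nonempty ι] {A : Finset ℕ} {n : ℕ} (h : ∀ a ∈ A, a + (m + 1) ≤ n) :
    D.X (IA m A) n = D.chi A • 1 := by
  have h0 : ∀ a ∈ A, a + (m + 1) ≤ A.sup id + (m + 1) := fun a ha => by
    have : a ≤ A.sup id := le_sup (f := id) ha
    omega
  obtain ⟨c, hc, -⟩ := D.done h
  obtain ⟨c0, hc0, -⟩ := D.done h0
  have e0 : D.chi A = c0 := by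
    unfold Meas.chi
    rw [hc0, trace_scalar]
  have e1 := D.persist h hc (le_max_left n (A.sup id + (m + 1)))
  have e2 := D.persist h0 hc0 (le_max_right n (A.sup id + (m + 1)))
  rw [e1] at e2
  have e3 := congrArg (fun Z : Matrix ι ι ℝ => Z.trace / Fintype.card ι) e2
  simp only [trace_scalar] at e3
  rw [hc, e0, e3]

theorem smul_one_inj [Nonempty ι] {c d : ℝ} (h : c • (1 : Matrix ι ι ℝ) = d • 1) : c = d := by
  have e3 := congrArg (fun Z : Matrix ι ι ℝ => Z.trace / Fintype.card ι) h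
  simpa only [trace_scalar] using e3

theorem Meas.chi_odd [Nonempty ι] {A : Finset ℕ} (h : Odd A.card) : D.chi A = 0 := by
  have h0 : ∀ a ∈ A, a + (m + 1) ≤ A.sup id + (m + 1) := fun a ha => by
    have : a ≤ A.sup id := le_sup (f := id) ha
    omega
  obtain ⟨c, hc, h1⟩ := D.done h0
  have h2 := D.chi_spec h0
  rw [hc] at h2
  rw [← smul_one_inj h2, h1 h]

theorem Meas.X_eq_one {I : ℕ → Prop} [DecidablePred I] {n : ℕ} (h : ∀ i < n, ¬ I i) :
    D.X I n = 1 := by
  induction n with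
  | zero => rfl
  | succ n ih =>
    rw [Meas.X, if_neg (h n (Nat.lt_succ_self n)), ih fun i hi => h i (hi.trans (Nat.lt_succ_self n))]
    have := D.Do_smul_one 1 n
    simpa using this

theorem Meas.X_congr {I I' : ℕ → Prop} [DecidablePred I] [DecidablePred I'] {n : ℕ}
    (h : ∀ i < n, (I i ↔ I' i)) : D.X I n = D.X I' n := by
  induction n with
  | zero => rfl
  | succ n ih =>
    rw [Meas.X, Meas.X, ih fun i hi => h i (hi.trans (Nat.lt_succ_self n))]
    simp only [h n (Nat.lt_succ_self n)]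

theorem Jo_smul (a b c : ℝ) (M X : Matrix ι ι ℝ) : Jo a b M (c • X) = c • Jo a b M X := by
  unfold Jo
  rw [mul_smul_comm, smul_mul_assoc, ← smul_add, smul_comm]

theorem Do_smul (a b c : ℝ) (M X : Matrix ι ι ℝ) : Do a b M (c • X) = c • Do a b M X := by
  unfold Do
  rw [mul_smul_comm, smul_mul_assoc, smul_add, smul_comm c, smul_comm c]

theorem Meas.X_forward {I I' : ℕ → Prop} [DecidablePred I] [DecidablePred I'] {n : ℕ} {c : ℝ}
    (h0 : D.X I n = c • D.X I' n) (h : ∀ i, n ≤ i → (I i ↔ I' i)) {n' : ℕ} (hn : n ≤ n') :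
    D.X I n' = c • D.X I' n' := by
  induction n', hn using Nat.le_induction with
  | base => exact h0
  | succ n' hn ih =>
    rw [Meas.X, Meas.X, ih]
    simp only [h n' hn]
    split_ifs
    · rw [Jo_smul]
    · rw [Do_smul]

theorem Meas.chi_empty [Nonempty ι] : D.chi ∅ = 1 := by
  have h := D.chi_spec (A := ∅) (n := 0) (by simp)
  have h1 : D.X (IA m ∅) 0 = (1 : ℝ) • 1 := by rw [one_smul]; rfl
  rw [h1] at h
  exact (smul_one_inj h).symm

theorem Meas.chi_mul [Nonempty ι] {A B : Finset ℕ} (h : ∀ a ∈ A, ∀ b ∈ B, a + (m + 1) ≤ b) :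
    D.chi (A ∪ B) = D.chi A * D.chi B := by
  rcases A.eq_empty_or_nonempty with rfl | hne
  · rw [empty_union, D.chi_empty, one_mul]
  obtain ⟨n, hn1, hn2⟩ : ∃ n, (∀ a ∈ A, a + (m + 1) ≤ n) ∧ ∀ b ∈ B, n ≤ b := by
    refine ⟨A.max' hne + (m + 1), fun a ha => ?_, fun b hb => h _ (A.max'_mem hne) b hb⟩
    have := A.le_max' a ha
    omega
  have c1 : ∀ i < n, cnt m (A ∪ B) i = cnt m A i := by
    intro i hi
    unfold cnt
    rw [filter_union, (filter_eq_empty_iff (s := B)).2, union_empty]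
    rintro b hb ⟨h1, -⟩
    have := hn2 b hb
    omega
  have c2 : ∀ i, n ≤ i → cnt m (A ∪ B) i = cnt m B i := by
    intro i hi
    unfold cnt
    rw [filter_union, (filter_eq_empty_iff (s := A)).2, empty_union]
    rintro a ha ⟨-, h1⟩
    have := hn1 a ha
    omega
  have e1 : D.X (IA m (A ∪ B)) n = D.chi A • 1 := by
    rw [← D.chi_spec hn1]
    refine D.X_congr fun i hi => ?_
    unfold IA
    rw [c1 i hi]
  have e2 : D.X (IA m B) n = 1 := by
    refine D.X_eq_one fun i hi => not_IA fun b hb => Or.inr ?_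
    have := hn2 b hb
    omega
  have e3 : ∀ N, n ≤ N → D.X (IA m (A ∪ B)) N = D.chi A • D.X (IA m B) N := by
    intro N hN
    refine D.X_forward (by rw [e1, e2]) (fun i hi => ?_) hN
    unfold IA
    rw [c2 i hi]
  set N := max n ((A ∪ B).sup id + (m + 1)) with hN
  have hAB : ∀ a ∈ A ∪ B, a + (m + 1) ≤ N := fun a ha => by
    have h1 : a ≤ (A ∪ B).sup id := le_sup (f := id) ha
    have h2 := le_max_right n ((A ∪ B).sup id + (m + 1))
    omega
  have h4 := D.chi_spec hAB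
  rw [e3 N (le_max_left _ _), D.chi_spec fun b hb => hAB b (mem_union_right A hb), smul_smul] at h4
  exact (smul_one_inj h4).symm

theorem Meas.conj_Jo (i : ℕ) (X : Matrix ι ι ℝ) :
    Jo D.a D.b (D.M (i + 1)) (D.O * X * D.Oᵀ) = D.O * Jo D.a D.b (D.M i) X * D.Oᵀ := by
  unfold Jo Meas.M
  rw [← D.shift]
  rw [mul_smul_comm, smul_mul_assoc]
  congr 1
  have h : ∀ Y Z : Matrix ι ι ℝ, D.O * Y * D.Oᵀ * (D.O * Z * D.Oᵀ) = D.O * (Y * Z) * D.Oᵀ := by
    intro Y Z
    calc D.O * Y * D.Oᵀ * (D.O * Z * D.Oᵀ) = D.O * Y * (D.Oᵀ * D.O) * Z * D.Oᵀ := by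
          simp only [mul_assoc]
      _ = D.O * (Y * Z) * D.Oᵀ := by rw [D.hO', mul_one]; simp only [mul_assoc]
  rw [h, h, mul_add, add_mul]

theorem Meas.conj_Do (i : ℕ) (X : Matrix ι ι ℝ) :
    Do D.a D.b (D.M (i + 1)) (D.O * X * D.Oᵀ) = D.O * Do D.a D.b (D.M i) X * D.Oᵀ := by
  unfold Do Meas.M
  rw [← D.shift]
  rw [mul_add, add_mul, mul_smul_comm, smul_mul_assoc, mul_smul_comm, smul_mul_assoc]
  have h : ∀ Y Z : Matrix ι ι ℝ, D.O * Y * D.Oᵀ * (D.O * Z * D.Oᵀ) = D.O * (Y * Z) * D.Oᵀ := by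
    intro Y Z
    calc D.O * Y * D.Oᵀ * (D.O * Z * D.Oᵀ) = D.O * Y * (D.Oᵀ * D.O) * Z * D.Oᵀ := by
          simp only [mul_assoc]
      _ = D.O * (Y * Z) * D.Oᵀ := by rw [D.hO', mul_one]; simp only [mul_assoc]
  rw [h, h]

theorem cnt_shift (A : Finset ℕ) (n : ℕ) : cnt m (A.image (· + 1)) (n + 1) = cnt m A n := by
  unfold cnt
  rw [filter_image, card_image_of_injective _ (add_left_injective 1)]
  congr 1
  ext a
  simp only [mem_filter]
  constructor
  · rintro ⟨h1, h2, h3⟩; exact ⟨h1, by omega, by omega⟩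
  · rintro ⟨h1, h2, h3⟩; exact ⟨h1, by omega, by omega⟩

theorem Meas.X_shift (A : Finset ℕ) (n : ℕ) :
    D.X (IA m (A.image (· + 1))) (n + 1) = D.O * D.X (IA m A) n * D.Oᵀ := by
  induction n with
  | zero =>
    rw [D.X_eq_one]
    · change 1 = D.O * 1 * D.Oᵀ
      rw [mul_one, D.hO]
    · intro i hi
      refine not_IA fun b hb => Or.inr ?_
      obtain ⟨a, -, rfl⟩ := mem_image.1 hb
      omega
  | succ n ih =>
    have hI : IA m (A.image (· + 1)) (n + 1) ↔ IA m A n := by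
      unfold IA; rw [cnt_shift]
    rw [Meas.X, ih, Meas.X]
    simp only [hI]
    split_ifs
    · rw [D.conj_Jo]
    · rw [D.conj_Do]

theorem Meas.chi_shift [Nonempty ι] (A : Finset ℕ) : D.chi (A.image (· + 1)) = D.chi A := by
  have h0 : ∀ a ∈ A, a + (m + 1) ≤ A.sup id + (m + 1) := fun a ha => by
    have : a ≤ A.sup id := le_sup (f := id) ha
    omega
  have h1 : ∀ b ∈ A.image (· + 1), b + (m + 1) ≤ A.sup id + (m + 1) + 1 := by
    intro b hb
    obtain ⟨a, ha, rfl⟩ := mem_image.1 hb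
    have := h0 a ha
    omega
  have h2 := D.chi_spec h1
  rw [D.X_shift, D.chi_spec h0, mul_smul_comm, smul_mul_assoc, mul_one, D.hO] at h2
  exact (smul_one_inj h2).symm

/-! ### positivity -/

/-- the sign of a letter -/
noncomputable def sg (U : Finset ℕ) (n : ℕ) : ℝ := if n ∈ U then -1 else 1

/-- the Kraus operators -/
noncomputable def Meas.K (U : Finset ℕ) (n : ℕ) : Matrix ι ι ℝ :=
  D.a • 1 + (sg U n * D.b) • D.M n

/-- the products of the Kraus operators -/
noncomputable def Meas.Z (U : Finset ℕ) : ℕ → Matrix ι ι ℝ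
  | 0 => 1
  | n + 1 => D.K U n * Meas.Z U n

/-- the weights of the words -/
noncomputable def Meas.p (U : Finset ℕ) (n : ℕ) : ℝ := nn (D.Z U n) / Fintype.card ι

theorem Meas.p_nonneg (U : Finset ℕ) (n : ℕ) : 0 ≤ D.p U n :=
  div_nonneg (nn_nonneg _) (Nat.cast_nonneg _)

theorem Meas.Z_congr {U U' : Finset ℕ} {n : ℕ} (h : ∀ i < n, (i ∈ U ↔ i ∈ U')) :
    D.Z U n = D.Z U' n := by
  induction n with
  | zero => rfl
  | succ n ih =>
    rw [Meas.Z, Meas.Z, ih fun i hi => h i (hi.trans (Nat.lt_succ_self n)), Meas.K, Meas.K, sg, sg]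
    simp only [h n (Nat.lt_succ_self n)]

theorem Meas.K_t (U : Finset ℕ) (n : ℕ) : (D.K U n)ᵀ = D.K U n := by
  unfold Meas.K
  rw [transpose_add, transpose_smul, transpose_smul, transpose_one, D.M_t]

theorem Meas.KYK (U : Finset ℕ) (n : ℕ) (Y : Matrix ι ι ℝ) : D.K U n * Y * D.K U n =
    (D.a ^ 2) • Y + (sg U n * D.a * D.b) • (D.M n * Y + Y * D.M n) +
      (D.b ^ 2) • (D.M n * Y * D.M n) := by
  have hs : sg U n * sg U n = 1 := by unfold sg; split_ifs <;> norm_num
  unfold Meas.K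
  simp only [add_mul, mul_add, smul_mul_assoc, mul_smul_comm, one_mul, mul_one, smul_smul, smul_add]
  have e : sg U n * D.b * (sg U n * D.b) = D.b ^ 2 := by
    calc sg U n * D.b * (sg U n * D.b) = (sg U n * sg U n) * D.b ^ 2 := by ring
      _ = D.b ^ 2 := by rw [hs, one_mul]
  rw [e]
  have e1 : D.a * D.a = D.a ^ 2 := by ring
  have e2 : D.a * (sg U n * D.b) = sg U n * D.a * D.b := by ring
  have e3 : sg U n * D.b * D.a = sg U n * D.a * D.b := by ring
  simp only [e1, e2, e3]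
  abel

theorem Meas.sum_words (I : ℕ → Prop) [DecidablePred I] (n : ℕ) :
    ∑ U ∈ (range n).powerset, ((-1 : ℝ) ^ (U.filter I).card) • (D.Z U n * (D.Z U n)ᵀ) =
      D.X I n := by
  induction n with
  | zero => simp [Meas.Z, Meas.X]
  | succ n ih =>
    rw [range_add_one, sum_powerset_insert notMem_range_self]
    have h1 : ∀ U ∈ (range n).powerset, sg U n = 1 := by
      intro U hU
      unfold sg
      rw [if_neg]
      intro h
      exact notMem_range_self (mem_powerset.1 hU h)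
    have h2 : ∀ U : Finset ℕ, sg (insert n U) n = -1 := by
      intro U
      unfold sg
      rw [if_pos (mem_insert_self n U)]
    have h3 : ∀ U : Finset ℕ, D.Z (insert n U) n = D.Z U n := by
      intro U
      refine D.Z_congr fun i hi => ?_
      rw [mem_insert]
      constructor
      · rintro (rfl | h)
        · exact absurd hi (lt_irrefl _)
        · exact h
      · exact fun h => Or.inr h
    have hZ : ∀ U : Finset ℕ, D.Z U (n + 1) * (D.Z U (n + 1))ᵀ =
        D.K U n * (D.Z U n * (D.Z U n)ᵀ) * D.K U n := by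
      intro U
      rw [Meas.Z, transpose_mul, D.K_t]
      simp only [mul_assoc]
    have h4 : ∀ U ∈ (range n).powerset,
        ((-1 : ℝ) ^ ((insert n U).filter I).card) =
          (if I n then -1 else 1) * (-1 : ℝ) ^ (U.filter I).card := by
      intro U hU
      have hn : n ∉ U := fun h => notMem_range_self (mem_powerset.1 hU h)
      rw [filter_insert]
      split_ifs with hI
      · rw [card_insert_of_notMem (by simp [hn]), pow_succ]
        ring
      · rw [one_mul]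
    rw [← sum_add_distrib]
    have h5 : ∀ U ∈ (range n).powerset,
        ((-1 : ℝ) ^ (U.filter I).card) • (D.Z U (n + 1) * (D.Z U (n + 1))ᵀ) +
        ((-1 : ℝ) ^ ((insert n U).filter I).card) •
          (D.Z (insert n U) (n + 1) * (D.Z (insert n U) (n + 1))ᵀ) =
        (if I n then Jo D.a D.b (D.M n) (((-1 : ℝ) ^ (U.filter I).card) • (D.Z U n * (D.Z U n)ᵀ))
          else Do D.a D.b (D.M n) (((-1 : ℝ) ^ (U.filter I).card) • (D.Z U n * (D.Z U n)ᵀ))) := by
      intro U hU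
      rw [hZ, hZ, h3, D.KYK, D.KYK, h1 U hU, h2, h4 U hU]
      set Y := D.Z U n * (D.Z U n)ᵀ
      set t := (-1 : ℝ) ^ (U.filter I).card
      split_ifs with hI
      · rw [Jo_smul]
        unfold Jo
        module
      · rw [Do_smul]
        unfold Do
        module
    rw [sum_congr rfl h5, Meas.X]
    split_ifs with hI
    · rw [← ih]
      unfold Jo
      rw [mul_sum, sum_mul, ← sum_add_distrib, smul_sum]
    · rw [← ih]
      unfold Do
      rw [mul_sum, sum_mul, smul_sum, smul_sum, ← sum_add_distrib]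

theorem Meas.sum_p [Nonempty ι] {A : Finset ℕ} {n : ℕ} (h : ∀ a ∈ A, a + (m + 1) ≤ n) :
    ∑ U ∈ (range n).powerset, (-1 : ℝ) ^ (U.filter (IA m A)).card * D.p U n = D.chi A := by
  have h1 := congrArg (fun Z : Matrix ι ι ℝ => Z.trace / Fintype.card ι) (D.sum_words (IA m A) n)
  beta_reduce at h1
  rw [D.chi_spec h, trace_scalar, trace_sum, sum_div] at h1
  rw [← h1]
  refine sum_congr rfl fun U _ => ?_
  rw [trace_smul, smul_eq_mul, mul_div_assoc]
  rfl

end HC38bc51.FF
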