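import Mathlib
import Pool.Agent.Work.MP_38bc51_pr.FF.Mom
import Pool.Agent.Work.MP_38bc51_pr.HC.Seq
import Pool.Agent.Work.MP_38bc51_pr.HC.Hard

/-!
# The sign law
-/

set_option linter.unusedSectionVars false

namespace HC38bc51.FF

open Matrix Finset MeasureTheory ProbabilityTheory Filter Topology HC38bc51.HC

/-- a sign law from its probabilities of plus signs -/
theorem law_of_rho {M : ℕ} {ρ : Finset ℤ → ℝ} (ν : ℕ → ProbabilityMeasure (ℤ → Bool))
    (h : ∀ (c : Bool) (S : Finset ℤ),
      ∀ᶠ n in atTop, (ν n : Measure (ℤ → Bool)).real (CylB c S) = ρ S)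
    (hs : ∀ S, ρ (S.image (· + 1)) = ρ S)
    (hm : ∀ S T : Finset ℤ, (∀ a ∈ S, ∀ b ∈ T, (M : ℤ) ≤ |a - b|) → ρ (S ∪ T) = ρ S * ρ T) :
    ∃ Q : Measure (ℤ → Bool), SignLaw M Q ∧ ∀ S, Q.real (Cyl S) = ρ S := by
  classical
  set U : Ultrafilter ℕ := Filter.hyperfilter ℕ
  obtain ⟨μ, -, hμ⟩ := isCompact_univ.ultrafilter_le_nhds (U.map ν) (by simp)
  have hμ' : Tendsto ν U (𝓝 μ) := hμ
  have hU : (U : Filter ℕ) ≤ atTop := Nat.hyperfilter_le_atTop
  have hre : ∀ (c : Bool) (S : Finset ℤ), (μ : Measure (ℤ → Bool)).real (CylB c S) = ρ S := by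
    intro c S
    have h5 := ProbabilityMeasure.tendsto_measure_of_isClopen_of_tendsto hμ' (isClopen_CylB c S)
    have h6 : Tendsto (fun n => (ν n : Measure (ℤ → Bool)).real (CylB c S)) U
        (𝓝 ((μ : Measure (ℤ → Bool)).real (CylB c S))) := NNReal.tendsto_coe.mpr h5
    exact tendsto_nhds_unique h6 (tendsto_const_nhds.congr'
      ((Filter.Eventually.filter_mono hU (h c S)).mono fun n hn => hn.symm))
  have real_inj : ∀ {s t : Set (ℤ → Bool)}, (μ : Measure (ℤ → Bool)).real s
      = (μ : Measure (ℤ → Bool)).real t → (μ : Measure (ℤ → Bool)) s = (μ : Measure (ℤ → Bool)) t := by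
    intro s t hst
    exact (measureReal_eq_measureReal_iff).mp hst
  have hm1 : Measurable (fun (x : ℤ → Bool) (i : ℤ) => x (i + 1)) :=
    measurable_pi_iff.mpr fun i => measurable_pi_apply _
  have hm2 : Measurable (fun (x : ℤ → Bool) (i : ℤ) => !(x i)) :=
    measurable_pi_iff.mpr fun i =>
      (measurable_of_countable (fun b : Bool => !b)).comp (measurable_pi_apply i)
  refine ⟨(μ : Measure (ℤ → Bool)), ⟨inferInstance, ?_, ?_, ?_⟩, fun S => hre true S⟩
  · have : IsProbabilityMeasure (Measure.map (fun (x : ℤ → Bool) (i : ℤ) => x (i + 1))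
      (μ : Measure (ℤ → Bool))) := Measure.isProbabilityMeasure_map hm1.aemeasurable
    refine ext_of_generate_finite _ pi_eq (isPiSystem_cylSys Set.univ) ?_ ?_
    · rintro s ⟨S, -, rfl⟩
      rw [Measure.map_apply hm1 (measurableSet_Cyl S)]
      have e1 : (fun (x : ℤ → Bool) (i : ℤ) => x (i + 1)) ⁻¹' Cyl S
          = CylB true (S.image (· + 1)) := by
        ext x
        simp only [Cyl, CylB, Set.mem_preimage, Set.mem_ofPred_eq, Finset.forall_mem_image]
      rw [e1, ← CylB_true]
      exact real_inj (by rw [hre, hre, hs])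
    · rw [Measure.map_apply hm1 MeasurableSet.univ]
      rfl
  · have : IsProbabilityMeasure (Measure.map (fun (x : ℤ → Bool) (i : ℤ) => !(x i))
      (μ : Measure (ℤ → Bool))) := Measure.isProbabilityMeasure_map hm2.aemeasurable
    refine ext_of_generate_finite _ pi_eq (isPiSystem_cylSys Set.univ) ?_ ?_
    · rintro s ⟨S, -, rfl⟩
      rw [Measure.map_apply hm2 (measurableSet_Cyl S)]
      have e1 : (fun (x : ℤ → Bool) (i : ℤ) => !(x i)) ⁻¹' Cyl S = CylB false S := by
        ext x
        simp [Cyl, CylB]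
      rw [e1, ← CylB_true]
      exact real_inj (by rw [hre, hre])
    · rw [Measure.map_apply hm2 MeasurableSet.univ]
      rfl
  · intro S T hST
    simp only [← CylB_true]
    rw [hre, hre, hre, hm S T hST]

variable {m : ℕ} {ι : Type} [Fintype ι] [DecidableEq ι] (D : Meas m ι)

/-- sets of natural numbers at distance at least `m + 1` -/
theorem Meas.chi_mul' [Nonempty ι] (n : ℕ) : ∀ A B : Finset ℕ, A.card + B.card = n →
    (∀ a ∈ A, ∀ b ∈ B, a + (m + 1) ≤ b ∨ b + (m + 1) ≤ a) →
    D.chi (A ∪ B) = D.chi A * D.chi B := by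
  induction n using Nat.strong_induction_on with
  | _ n ih =>
    -- the case in which the largest element is in `B`
    have key : ∀ A B : Finset ℕ, A.card + B.card = n →
        (∀ a ∈ A, ∀ b ∈ B, a + (m + 1) ≤ b ∨ b + (m + 1) ≤ a) → ∀ (hA : A.Nonempty)
        (hB : B.Nonempty), A.max' hA < B.max' hB → D.chi (A ∪ B) = D.chi A * D.chi B := by
      intro A B hn h hA hB hlt
      set α := A.max' hA with hα
      have hαA : α ∈ A := A.max'_mem hA
      set B' := B.filter fun b => α < b
      set B'' := B.filter fun b => ¬ (α < b)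
      have hBB : B'' ∪ B' = B := by
        rw [union_comm]
        exact filter_union_filter_not_eq _ B
      have h1 : ∀ b ∈ B'', b + (m + 1) ≤ α := by
        intro b hb
        rw [mem_filter] at hb
        rcases h α hαA b hb.1 with h2 | h2
        · omega
        · exact h2
      have h2 : ∀ b ∈ B', α + (m + 1) ≤ b := by
        intro b hb
        rw [mem_filter] at hb
        rcases h α hαA b hb.1 with h2 | h2
        · exact h2
        · omega
      have h3 : ∀ a ∈ A ∪ B'', ∀ b ∈ B', a + (m + 1) ≤ b := by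
        intro a ha b hb
        have h4 := h2 b hb
        rcases mem_union.1 ha with h5 | h5
        · have := A.le_max' a h5
          omega
        · have := h1 a h5
          omega
      have hne : B'.Nonempty := ⟨B.max' hB, mem_filter.2 ⟨B.max'_mem hB, hlt⟩⟩
      have hcard : B''.card < B.card := by
        refine card_lt_card ?_
        rw [ssubset_iff_of_subset (filter_subset _ _)]
        exact ⟨B.max' hB, B.max'_mem hB, fun hc => (mem_filter.1 hc).2 hlt⟩
      have e1 : A ∪ B = (A ∪ B'') ∪ B' := by rw [union_assoc, hBB]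
      rw [e1, D.chi_mul h3, ih (A.card + B''.card) (by omega) A B'' rfl
        (fun a ha b hb => h a ha b (mem_filter.1 hb).1)]
      have e2 := D.chi_mul (A := B'') (B := B') fun a ha b hb => h3 a (mem_union_right A ha) b hb
      rw [hBB] at e2
      rw [e2, mul_assoc]
    intro A B hn h
    rcases A.eq_empty_or_nonempty with rfl | hA
    · rw [empty_union, D.chi_empty, one_mul]
    rcases B.eq_empty_or_nonempty with rfl | hB
    · rw [union_empty, D.chi_empty, mul_one]
    rcases lt_trichotomy (A.max' hA) (B.max' hB) with hlt | heq | hgt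
    · exact key A B hn h hA hB hlt
    · exfalso
      have := h _ (A.max'_mem hA) _ (B.max'_mem hB)
      omega
    · rw [union_comm, mul_comm]
      exact key B A (by omega) (fun a ha b hb => (h b hb a ha).symm) hB hA hgt

/-- translation into the natural numbers -/
def tn (n : ℕ) (A : Finset ℤ) : Finset ℕ := A.image fun i : ℤ => (i + n).toNat

theorem tn_succ {n : ℕ} {A : Finset ℤ} (h : ∀ a ∈ A, -(n : ℤ) ≤ a) :
    tn (n + 1) A = (tn n A).image (· + 1) := by
  unfold tn
  rw [image_image]
  refine image_congr fun a ha => ?_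
  have := h a ha
  simp only [Function.comp_apply]
  push_cast
  omega

theorem chi_tn [Nonempty ι] {n n' : ℕ} (hn : n ≤ n') {A : Finset ℤ} (h : ∀ a ∈ A, -(n : ℤ) ≤ a) :
    D.chi (tn n' A) = D.chi (tn n A) := by
  induction n', hn using Nat.le_induction with
  | base => rfl
  | succ n' hn ih =>
    rw [tn_succ fun a ha => ?_, D.chi_shift, ih]
    have := h a ha
    omega

/-- the moments -/
noncomputable def Meas.chiZ (A : Finset ℤ) : ℝ := D.chi (tn (A.sup Int.natAbs) A)

theorem sup_ge (A : Finset ℤ) : ∀ a ∈ A, -((A.sup Int.natAbs : ℕ) : ℤ) ≤ a := by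
  intro a ha
  have h1 : a.natAbs ≤ A.sup Int.natAbs := Finset.le_sup (f := Int.natAbs) ha
  omega

theorem Meas.chiZ_spec [Nonempty ι] {n : ℕ} {A : Finset ℤ} (h : ∀ a ∈ A, -(n : ℤ) ≤ a) :
    D.chi (tn n A) = D.chiZ A := by
  unfold Meas.chiZ
  rw [← chi_tn D (le_max_left n (A.sup Int.natAbs)) h,
    ← chi_tn D (le_max_right n (A.sup Int.natAbs)) (sup_ge A)]

theorem Meas.chiZ_shift [Nonempty ι] (A : Finset ℤ) : D.chiZ (A.image (· + 1)) = D.chiZ A := by
  set n := A.sup Int.natAbs
  have h := sup_ge A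
  have h1 : ∀ a ∈ A.image (· + 1), -(n : ℤ) ≤ a := by
    intro b hb
    obtain ⟨a, ha, rfl⟩ := mem_image.1 hb
    have := h a ha
    omega
  have h2 : ∀ a ∈ A, -((n + 1 : ℕ) : ℤ) ≤ a := by
    intro a ha
    have := h a ha
    push_cast
    omega
  rw [← D.chiZ_spec h1, ← D.chiZ_spec h2]
  congr 1
  unfold tn
  rw [image_image]
  refine image_congr fun a _ => ?_
  simp only [Function.comp_apply]
  push_cast
  congr 1
  ring

theorem Meas.chiZ_mul [Nonempty ι] {A B : Finset ℤ}
    (h : ∀ a ∈ A, ∀ b ∈ B, ((m + 1 : ℕ) : ℤ) ≤ |a - b|) : D.chiZ (A ∪ B) = D.chiZ A * D.chiZ B := by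
  set n := (A ∪ B).sup Int.natAbs
  have h0 := sup_ge (A ∪ B)
  rw [← D.chiZ_spec h0, ← D.chiZ_spec fun a ha => h0 a (mem_union_left B ha),
    ← D.chiZ_spec fun b hb => h0 b (mem_union_right A hb)]
  have e : tn n (A ∪ B) = tn n A ∪ tn n B := by
    unfold tn
    rw [image_union]
  rw [e]
  refine D.chi_mul' _ _ _ rfl ?_
  intro x hx y hy
  obtain ⟨a, ha, rfl⟩ := mem_image.1 hx
  obtain ⟨b, hb, rfl⟩ := mem_image.1 hy
  have h1 := h a ha b hb
  have h2 := h0 a (mem_union_left B ha)
  have h3 := h0 b (mem_union_right A hb)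
  rw [le_abs] at h1
  push_cast at h1
  omega

/-- the probabilities of plus signs -/
noncomputable def Meas.rho (S : Finset ℤ) : ℝ :=
  (1 / 2) ^ S.card * ∑ A ∈ S.powerset, D.chiZ A

theorem sum_powerset_union {S T : Finset ℤ} (hd : Disjoint S T) (F : Finset ℤ → ℝ) :
    ∑ C ∈ (S ∪ T).powerset, F C = ∑ A ∈ S.powerset, ∑ B ∈ T.powerset, F (A ∪ B) := by
  induction T using Finset.induction_on generalizing F with
  | empty => simp
  | insert b T hb ih =>
    have hd' : Disjoint S T := hd.mono_right (subset_insert b T)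
    have hbS : b ∉ S := fun h => (disjoint_left.1 hd h) (mem_insert_self b T)
    have hbU : b ∉ S ∪ T := by
      rw [mem_union]
      rintro (h | h)
      · exact hbS h
      · exact hb h
    rw [union_insert, sum_powerset_insert hbU, ih hd' F, ih hd' fun C => F (insert b C),
      ← sum_add_distrib]
    refine sum_congr rfl fun A _ => ?_
    rw [sum_powerset_insert hb]
    simp only [union_insert]

theorem Meas.rho_mul [Nonempty ι] {S T : Finset ℤ}
    (h : ∀ a ∈ S, ∀ b ∈ T, ((m + 1 : ℕ) : ℤ) ≤ |a - b|) : D.rho (S ∪ T) = D.rho S * D.rho T := by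
  have hd : Disjoint S T := by
    rw [disjoint_left]
    intro a ha hb
    have := h a ha a hb
    simp at this
    omega
  unfold Meas.rho
  rw [sum_powerset_union hd, card_union_of_disjoint hd, pow_add]
  have e : ∑ A ∈ S.powerset, ∑ B ∈ T.powerset, D.chiZ (A ∪ B) =
      (∑ A ∈ S.powerset, D.chiZ A) * ∑ B ∈ T.powerset, D.chiZ B := by
    rw [sum_mul_sum]
    refine sum_congr rfl fun A hA => sum_congr rfl fun B hB => ?_
    exact D.chiZ_mul fun a ha b hb => h a (mem_powerset.1 hA ha) b (mem_powerset.1 hB hb)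
  rw [e]
  ring

theorem Meas.rho_shift [Nonempty ι] (S : Finset ℤ) : D.rho (S.image (· + 1)) = D.rho S := by
  unfold Meas.rho
  rw [card_image_of_injective _ (add_left_injective 1), powerset_image, sum_image]
  · congr 1
    refine sum_congr rfl fun A _ => ?_
    exact D.chiZ_shift A
  · intro A _ B _ h
    exact image_injective (add_left_injective 1) h

/-- the sign at a place -/
def bl (m : ℕ) (U : Finset ℕ) (a : ℕ) : Bool :=
  decide (Even (U.filter fun i => a ≤ i ∧ i < a + (m + 1)).card)

theorem bl_val (U : Finset ℕ) (a : ℕ) : (if bl m U a = true then (1 : ℝ) else -1) =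
    ∏ i ∈ U, if a ≤ i ∧ i < a + (m + 1) then (-1 : ℝ) else 1 := by
  rw [prod_neg_filter, neg_pow_if]
  unfold bl
  by_cases h : Even (U.filter fun i => a ≤ i ∧ i < a + (m + 1)).card
  · simp [h, Nat.not_odd_iff_even.2 h]
  · simp [h, Nat.not_even_iff_odd.1 h]

theorem prod_bl (U A : Finset ℕ) : ∏ a ∈ A, (if bl m U a = true then (1 : ℝ) else -1) =
    (-1) ^ (U.filter (IA m A)).card := by
  simp only [bl_val]
  rw [Finset.prod_comm, ← prod_neg_filter]
  refine prod_congr rfl fun i _ => ?_
  rw [prod_neg_filter, neg_pow_if]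
  rfl

/-- the signs in the window `[-n, n)` -/
def pt (m n : ℕ) (U : Finset ℕ) (i : ℤ) : Bool := bl m U (i + n).toNat

/-- the sum over the words -/
theorem Meas.sum_win [Nonempty ι] (c : Bool) {n : ℕ} {S : Finset ℤ}
    (hS : ∀ i ∈ S, -(n : ℤ) ≤ i ∧ i < n) :
    ∑ U ∈ (range (2 * n + (m + 1))).powerset,
      (if ∀ i ∈ S, pt m n U i = c then D.p U (2 * n + (m + 1)) else 0) = D.rho S := by
  set N := 2 * n + (m + 1) with hN
  set cs : ℝ := if c = true then 1 else -1 with hcs
  have hinj : ∀ A ⊆ S, Set.InjOn (fun i : ℤ => (i + n).toNat) (A : Set ℤ) := by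
    intro A hA i hi j hj hij
    have h1 := hS i (hA hi)
    have h2 := hS j (hA hj)
    simp only at hij
    omega
  have h1 : ∀ U : Finset ℕ, (if ∀ i ∈ S, pt m n U i = c then D.p U N else 0) =
      (1 / 2) ^ S.card * ∑ A ∈ S.powerset, cs ^ A.card *
        ((-1) ^ (U.filter (IA m (tn n A))).card * D.p U N) := by
    intro U
    have e1 : (if ∀ i ∈ S, pt m n U i = c then D.p U N else 0) =
        (∏ i ∈ S, ((1 / 2) * (1 + cs * (if pt m n U i = true then (1 : ℝ) else -1)))) * D.p U N := by
      have e2 : ∀ i ∈ S, ((1 / 2) * (1 + cs * (if pt m n U i = true then (1 : ℝ) else -1))) =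
          if pt m n U i = c then 1 else 0 := by
        intro i _
        rw [hcs]
        cases c <;> cases pt m n U i <;> norm_num
      rw [prod_congr rfl e2, prod_boole]
      split_ifs <;> simp
    rw [e1, prod_mul_distrib, prod_const, prod_one_add, mul_assoc, sum_mul]
    congr 1
    refine sum_congr rfl fun A hA => ?_
    rw [prod_mul_distrib, prod_const, mul_assoc]
    congr 2
    have e3 : ∏ i ∈ A, (if pt m n U i = true then (1 : ℝ) else -1) =
        ∏ a ∈ tn n A, (if bl m U a = true then (1 : ℝ) else -1) := by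
      unfold tn
      rw [prod_image (hinj A (mem_powerset.1 hA))]
      rfl
    rw [e3, prod_bl]
  simp only [h1]
  rw [← mul_sum, sum_comm]
  unfold Meas.rho
  congr 1
  refine sum_congr rfl fun A hA => ?_
  have hAS := mem_powerset.1 hA
  rw [← mul_sum, D.sum_p]
  · rw [D.chiZ_spec fun a ha => (hS a (hAS ha)).1]
    by_cases hodd : Odd A.card
    · have h2 : D.chiZ A = 0 := by
        rw [← D.chiZ_spec fun a ha => (hS a (hAS ha)).1]
        refine D.chi_odd ?_
        unfold tn
        rw [card_image_of_injOn (hinj A hAS)]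
        exact hodd
      rw [h2, mul_zero]
    · have h2 : cs ^ A.card = 1 := by
        rw [hcs]
        split_ifs
        · exact one_pow _
        · exact (Nat.not_odd_iff_even.1 hodd).neg_one_pow
      rw [h2, one_mul]
  · intro x hx
    obtain ⟨a, ha, rfl⟩ := mem_image.1 hx
    have := hS a (hAS ha)
    simp only [hN]
    omega

/-- finite window measure -/
noncomputable def Meas.win (n : ℕ) : Measure (ℤ → Bool) :=
  ∑ U ∈ (range (2 * n + (m + 1))).powerset,
    ENNReal.ofReal (D.p U (2 * n + (m + 1))) • Measure.dirac (pt m n U)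

theorem Meas.win_CylB [Nonempty ι] (c : Bool) {n : ℕ} {S : Finset ℤ}
    (hS : ∀ i ∈ S, -(n : ℤ) ≤ i ∧ i < n) : D.win n (CylB c S) = ENNReal.ofReal (D.rho S) := by
  rw [Meas.win, Measure.finsetSum_apply, ← D.sum_win c hS, ENNReal.ofReal_sum_of_nonneg]
  · refine sum_congr rfl fun U _ => ?_
    rw [Measure.smul_apply, Measure.dirac_apply' _ (measurableSet_CylB c S), smul_eq_mul]
    by_cases h : ∀ i ∈ S, pt m n U i = c
    · rw [if_pos h, Set.indicator_of_mem, Pi.one_apply, mul_one]
      exact h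
    · rw [if_neg h, Set.indicator_of_notMem, mul_zero, ENNReal.ofReal_zero]
      exact h
  · intro U _
    split_ifs
    · exact D.p_nonneg _ _
    · exact le_rfl

theorem Meas.rho_empty [Nonempty ι] : D.rho ∅ = 1 := by
  unfold Meas.rho
  rw [card_empty, pow_zero, one_mul, powerset_empty, sum_singleton]
  unfold Meas.chiZ tn
  rw [image_empty, D.chi_empty]

theorem Meas.rho_nonneg [Nonempty ι] (S : Finset ℤ) : 0 ≤ D.rho S := by
  have hS : ∀ i ∈ S, -((S.sup Int.natAbs + 1 : ℕ) : ℤ) ≤ i ∧ i < (S.sup Int.natAbs + 1 : ℕ) := by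
    intro i hi
    have h1 : i.natAbs ≤ S.sup Int.natAbs := Finset.le_sup (f := Int.natAbs) hi
    omega
  rw [← D.sum_win true hS]
  refine sum_nonneg fun U _ => ?_
  split_ifs
  · exact D.p_nonneg _ _
  · exact le_rfl

theorem Meas.signLaw [Nonempty ι] :
    ∃ Q : Measure (ℤ → Bool), SignLaw (m + 1) Q ∧ chg Q = (1 - D.chi {0, 1}) / 2 := by
  have hprob : ∀ n, IsProbabilityMeasure (D.win n) := by
    intro n
    constructor
    have h := D.win_CylB true (n := n) (S := ∅) (by simp)
    have e : CylB true ∅ = Set.univ := by ext x; simp [CylB]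
    rw [e, D.rho_empty] at h
    simpa using h
  obtain ⟨Q, hQ, hρ⟩ := law_of_rho (M := m + 1) (ρ := D.rho) (fun n => ⟨D.win n, hprob n⟩)
    (fun c S => by
      filter_upwards [eventually_ge_atTop (S.sup Int.natAbs + 1)] with n hn
      have hnS : ∀ i ∈ S, -(n : ℤ) ≤ i ∧ i < n := by
        intro i hi
        have h1 : i.natAbs ≤ S.sup Int.natAbs := Finset.le_sup (f := Int.natAbs) hi
        omega
      change (D.win n).real (CylB c S) = _
      rw [Measure.real, D.win_CylB c hnS, ENNReal.toReal_ofReal (D.rho_nonneg S)])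
    D.rho_shift (fun S T h => D.rho_mul h)
  refine ⟨Q, hQ, ?_⟩
  have h1 := HX_prob hQ
  have e1 : {s : ℤ → Bool | HX 0 s = true} = Cyl {0, 1} := by
    ext s
    simp [HX, alt, Cyl]
  rw [e1, hρ] at h1
  have h01 : (0 : ℤ) ∉ ({1} : Finset ℤ) := by simp
  have e2 : D.rho {0, 1} = (1 + D.chi {0, 1}) / 4 := by
    unfold Meas.rho
    have hodd : ∀ a : ℤ, D.chiZ {a} = 0 := by
      intro a
      unfold Meas.chiZ tn
      refine D.chi_odd ?_
      rw [image_singleton, card_singleton]
      decide
    have hemp : D.chiZ ∅ = 1 := by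
      unfold Meas.chiZ tn
      rw [image_empty, D.chi_empty]
    have h01' : D.chiZ {0, 1} = D.chi {0, 1} := by
      rw [← D.chiZ_spec (n := 0) (by simp)]
      rfl
    have hp : ({1} : Finset ℤ).powerset = insert ∅ {{1}} := by decide
    rw [card_pair (by norm_num), sum_powerset_insert h01, hp, sum_insert (by simp), sum_singleton, sum_insert (by simp), sum_singleton, hodd, hemp]
    have e3 : insert (0 : ℤ) (∅ : Finset ℤ) = {0} := rfl
    have e4 : insert (0 : ℤ) ({1} : Finset ℤ) = {0, 1} := rfl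
    rw [e3, e4, hodd, h01']
    ring
  rw [e2] at h1
  linarith

end HC38bc51.FF
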