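import Mathlib
import Pool.Agent.Work.MP_38bc51_pr.FF.Law

/-!
# The sign law of a product of reflections
-/

set_option linter.unusedSectionVars false

namespace HC38bc51.FF

open Matrix Finset MeasureTheory HC38bc51.HC

variable {m : ℕ} {ι : Type} [Fintype ι] [DecidableEq ι] (R : Rep (m + 1) ι)

/-- the reflection along `w` -/
noncomputable def refl (w v : Fin m → ℝ) : Fin m → ℝ := v - (2 * (w ⬝ᵥ v) / (w ⬝ᵥ w)) • w

theorem refl_dot {w : Fin m → ℝ} (hw : w ⬝ᵥ w ≠ 0) (v : Fin m → ℝ) :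
    refl w v ⬝ᵥ refl w v = v ⬝ᵥ v := by
  unfold refl
  rw [sub_dotProduct, dotProduct_sub, dotProduct_sub, smul_dotProduct, smul_dotProduct,
    dotProduct_smul, dotProduct_smul, dotProduct_comm v w]
  simp only [smul_eq_mul]
  field_simp
  ring

theorem impl_refl {w : Fin m → ℝ} (hw : w ⬝ᵥ w ≠ 0) : ∃ O : Matrix ι ι ℝ, O * Oᵀ = 1 ∧
    ∀ v k, O * Mo R v k * Oᵀ = Mo R (refl w v) k := by
  have hpos : 0 < w ⬝ᵥ w := by
    have h : 0 ≤ w ⬝ᵥ w := by
      unfold dotProduct
      exact sum_nonneg fun i _ => mul_self_nonneg _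
    exact lt_of_le_of_ne h (Ne.symm hw)
  set c := w ⬝ᵥ w with hc
  have hs : (√c)⁻¹ * (√c)⁻¹ = c⁻¹ := by
    rw [← mul_inv, Real.mul_self_sqrt hpos.le]
  have hEE : Ev R w * Ev R w = c • 1 := by
    have h := Ev_Ev R w w
    rw [← two_smul ℝ, ← hc, mul_smul] at h
    exact smul_right_injective _ (by norm_num : (2 : ℝ) ≠ 0) h
  refine ⟨(√c)⁻¹ • Ev R w, ?_, fun v k => ?_⟩
  · rw [transpose_smul, Ev_t, smul_mul_assoc, mul_smul_comm, smul_smul, hs, hEE, smul_smul,
      inv_mul_cancel₀ hw, one_smul]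
  · rw [transpose_smul, Ev_t]
    have e1 : (√c)⁻¹ • Ev R w * Mo R v k * (√c)⁻¹ • Ev R w =
        c⁻¹ • (Ev R w * Mo R v k * Ev R w) := by
      rw [smul_mul_assoc, smul_mul_assoc, mul_smul_comm, smul_smul, hs]
    rw [e1]
    unfold Mo refl
    have h1 : R.f k * Ev R w = - (Ev R w * R.f k) := by rw [Ev_f, neg_neg]
    have h2 : Ev R v * Ev R w = (2 * (w ⬝ᵥ v)) • 1 - Ev R w * Ev R v := by
      rw [← Ev_Ev R w v]; abel
    have e2 : Ev R w * (Ev R v * R.f k) * Ev R w = c • (Ev R v * R.f k) -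
        (2 * (w ⬝ᵥ v)) • (Ev R w * R.f k) := by
      calc Ev R w * (Ev R v * R.f k) * Ev R w = Ev R w * Ev R v * (R.f k * Ev R w) := by
            simp only [mul_assoc]
        _ = - (Ev R w * (Ev R v * Ev R w) * R.f k) := by
            rw [h1]; simp only [mul_neg, mul_assoc]
        _ = - ((2 * (w ⬝ᵥ v)) • (Ev R w * R.f k) - c • (Ev R v * R.f k)) := by
            rw [h2, mul_sub, sub_mul, mul_smul_comm, mul_one, smul_mul_assoc, ← mul_assoc, hEE,
              smul_mul_assoc, one_mul, smul_mul_assoc]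
        _ = _ := by abel
    rw [e2, Ev_sub, Ev_smul, sub_mul, smul_mul_assoc, smul_sub, smul_smul, smul_smul,
      inv_mul_cancel₀ hw, one_smul]
    congr 2
    rw [← hc]
    field_simp

theorem impl_swap {x y : Fin (m + 1)} (hxy : x ≠ y) : ∃ O : Matrix ι ι ℝ, O * Oᵀ = 1 ∧
    ∀ v k, O * Mo R v k * Oᵀ = Mo R v (Equiv.swap x y k) := by
  have hs : (√2)⁻¹ * (√2)⁻¹ = (1 / 2 : ℝ) := by
    rw [← mul_inv, Real.mul_self_sqrt (by norm_num)]
    norm_num
  set h : Matrix ι ι ℝ := R.f x - R.f y with hh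
  have hhh : h * h = (-2 : ℝ) • 1 := by
    rw [hh, sub_mul, mul_sub, mul_sub, f_sq, f_sq, f_ne R hxy]
    module
  have ht : hᵀ = - h := by
    rw [hh, transpose_sub, R.ft, R.ft]
    abel
  have hE : ∀ v, h * Ev R v = - (Ev R v * h) := by
    intro v
    have h1 : ∀ k, R.f k * Ev R v = - (Ev R v * R.f k) := fun k => by rw [Ev_f, neg_neg]
    rw [hh, sub_mul, mul_sub, h1, h1]
    abel
  have hf : ∀ k, h * R.f k * h = (2 : ℝ) • R.f (Equiv.swap x y k) := by
    intro k
    by_cases h1 : k = x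
    · subst h1
      rw [Equiv.swap_apply_left]
      have e1 : h * R.f k = -1 - R.f y * R.f k := by rw [hh, sub_mul, f_sq]
      rw [e1, hh, sub_mul, mul_sub, mul_sub]
      have e2 : R.f y * R.f k * R.f k = - R.f y := by rw [mul_assoc, f_sq]; simp
      have e3 : R.f y * R.f k * R.f y = R.f k := by
        rw [f_ne R hxy.symm, neg_mul, mul_assoc, f_sq]; simp
      rw [e2, e3]
      simp only [neg_mul, one_mul]
      module
    · by_cases h2 : k = y
      · subst h2
        rw [Equiv.swap_apply_right]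
        have e1 : h * R.f k = R.f x * R.f k + 1 := by rw [hh, sub_mul, f_sq]; abel
        rw [e1, hh, add_mul, mul_sub, mul_sub]
        have e2 : R.f x * R.f k * R.f k = - R.f x := by rw [mul_assoc, f_sq]; simp
        have e3 : R.f x * R.f k * R.f x = R.f k := by
          rw [f_ne R hxy, neg_mul, mul_assoc, f_sq]; simp
        rw [e2, e3]
        simp only [one_mul]
        module
      · rw [Equiv.swap_apply_of_ne_of_ne h1 h2]
        have e1 : h * R.f k = - (R.f k * h) := by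
          rw [hh, sub_mul, mul_sub, f_ne R (fun h => h1 h.symm), f_ne R (fun h => h2 h.symm)]
          abel
        rw [e1, neg_mul, mul_assoc, hhh, mul_smul_comm, mul_one, ← neg_smul]
        norm_num
  refine ⟨(√2)⁻¹ • h, ?_, fun v k => ?_⟩
  · rw [transpose_smul, ht, smul_mul_assoc, mul_smul_comm, smul_smul, hs, mul_neg, hhh]
    module
  · rw [transpose_smul, ht]
    have e1 : (√2)⁻¹ • h * Mo R v k * (√2)⁻¹ • -h = (1 / 2 : ℝ) • (- (h * Mo R v k * h)) := by
      rw [smul_mul_assoc, smul_mul_assoc, mul_smul_comm, smul_smul, hs, mul_neg]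
    rw [e1]
    unfold Mo
    have e2 : h * (Ev R v * R.f k) * h = - (Ev R v * (h * R.f k * h)) := by
      calc h * (Ev R v * R.f k) * h = (h * Ev R v) * R.f k * h := by simp only [mul_assoc]
        _ = - (Ev R v * (h * R.f k * h)) := by rw [hE]; simp only [neg_mul, mul_assoc]
    rw [e2, hf, mul_smul_comm]
    module

theorem impl_perm (π : Equiv.Perm (Fin (m + 1))) : ∃ O : Matrix ι ι ℝ, O * Oᵀ = 1 ∧
    ∀ v k, O * Mo R v k * Oᵀ = Mo R v (π k) := by
  induction π using Equiv.Perm.swap_induction_on with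
  | one => exact ⟨1, by simp, fun v k => by simp⟩
  | swap_mul f x y hxy ih =>
    obtain ⟨O, h1, h2⟩ := ih
    obtain ⟨O', h1', h2'⟩ := impl_swap R hxy
    refine ⟨O' * O, ?_, fun v k => ?_⟩
    · calc O' * O * (O' * O)ᵀ = O' * (O * Oᵀ) * O'ᵀ := by
            rw [transpose_mul]; simp only [mul_assoc]
        _ = 1 := by rw [h1, mul_one, h1']
    · calc O' * O * Mo R v k * (O' * O)ᵀ = O' * (O * Mo R v k * Oᵀ) * O'ᵀ := by
            rw [transpose_mul]; simp only [mul_assoc]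
        _ = Mo R v ((Equiv.swap x y * f) k) := by rw [h2, h2']; rfl

/-- the product of the reflections along the vectors of a list -/
noncomputable def Rf : List (Fin m → ℝ) → (Fin m → ℝ) → Fin m → ℝ
  | [], v => v
  | w :: ws, v => refl w (Rf ws v)

theorem Rf_dot {ws : List (Fin m → ℝ)} (hw : ∀ w ∈ ws, w ⬝ᵥ w ≠ 0) (v : Fin m → ℝ) :
    Rf ws v ⬝ᵥ Rf ws v = v ⬝ᵥ v := by
  induction ws with
  | nil => rfl
  | cons w ws ih =>
    rw [Rf, refl_dot (hw w (by simp)), ih fun w hw' => hw w (by simp [hw'])]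

theorem impl_all {ws : List (Fin m → ℝ)} (hw : ∀ w ∈ ws, w ⬝ᵥ w ≠ 0)
    (π : Equiv.Perm (Fin (m + 1))) : ∃ O : Matrix ι ι ℝ, O * Oᵀ = 1 ∧
    ∀ v k, O * Mo R v k * Oᵀ = Mo R (Rf ws v) (π k) := by
  induction ws with
  | nil => exact impl_perm R π
  | cons w ws ih =>
    obtain ⟨O, h1, h2⟩ := ih fun w hw' => hw w (by simp [hw'])
    obtain ⟨O', h1', h2'⟩ := impl_refl R (hw w (by simp))
    refine ⟨O' * O, ?_, fun v k => ?_⟩
    · calc O' * O * (O' * O)ᵀ = O' * (O * Oᵀ) * O'ᵀ := by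
            rw [transpose_mul]; simp only [mul_assoc]
        _ = 1 := by rw [h1, mul_one, h1']
    · calc O' * O * Mo R v k * (O' * O)ᵀ = O' * (O * Mo R v k * Oᵀ) * O'ᵀ := by
            rw [transpose_mul]; simp only [mul_assoc]
        _ = Mo R (Rf (w :: ws) v) (π k) := by rw [h2, h2']; rfl

/-- The vectors of the formula for the correlation: `vv j` is the vector at time `j + 1`. -/
noncomputable def vv (u : ℕ → Fin m → ℝ) (δ : ℝ) : ℕ → Fin m → ℝ
  | 0 => u 0
  | j + 1 => vv u δ j - (δ * (u (j + 1) ⬝ᵥ vv u δ j)) • u (j + 1)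

theorem trace_EE [Nonempty ι] (u v : Fin m → ℝ) :
    (Ev R u * Ev R v).trace = (u ⬝ᵥ v) * Fintype.card ι := by
  have h := congrArg Matrix.trace (Ev_Ev R u v)
  rw [trace_add, trace_mul_comm (Ev R v), trace_smul, trace_one, smul_eq_mul] at h
  linarith

theorem cnt_01 (i : ℕ) : (IA m {0, 1} i ↔ i = 0 ∨ i = m + 1) := by
  unfold IA cnt
  have h01 : (0 : ℕ) ∉ ({1} : Finset ℕ) := by simp
  rw [filter_insert, filter_singleton]
  by_cases h0 : i = 0
  · subst h0
    simp
  · by_cases h1 : i < m + 1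
    · have c1 : (0 ≤ i ∧ i < 0 + (m + 1)) := ⟨by omega, by omega⟩
      have c2 : (1 ≤ i ∧ i < 1 + (m + 1)) := ⟨by omega, by omega⟩
      rw [if_pos c1, if_pos c2]
      have : ¬ (i = 0 ∨ i = m + 1) := by omega
      simp only [this, iff_false]
      decide
    · by_cases h2 : i = m + 1
      · have c1 : ¬ (0 ≤ i ∧ i < 0 + (m + 1)) := by omega
        have c2 : (1 ≤ i ∧ i < 1 + (m + 1)) := ⟨by omega, by omega⟩
        rw [if_neg c1, if_pos c2]
        simp [h2]
      · have c1 : ¬ (0 ≤ i ∧ i < 0 + (m + 1)) := by omega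
        have c2 : ¬ (1 ≤ i ∧ i < 1 + (m + 1)) := by omega
        rw [if_neg c1, if_neg c2]
        have : ¬ (i = 0 ∨ i = m + 1) := by omega
        simp [this]

variable (D : Meas m ι)

theorem Meas.chi_pair [Nonempty ι] : D.chi {0, 1} =
    (4 * D.a * D.b) ^ 2 * (D.u (m + 1) ⬝ᵥ vv D.u (4 * D.b ^ 2) m) := by
  set I := IA m {0, 1} with hI
  have hix0 : ix m 0 = 0 := rfl
  -- the states at times `1, ..., m + 1`
  have hX : ∀ j, j ≤ m → D.X (IA m {0, 1}) (j + 1) =
      (4 * D.a * D.b) • Mo D.R (vv D.u (4 * D.b ^ 2) j) 0 := by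
    intro j
    induction j with
    | zero =>
      intro _
      rw [Meas.X, if_pos ((cnt_01 0).2 (Or.inl rfl)), Meas.X]
      unfold Jo Meas.M
      rw [mul_one, one_mul, ← two_smul ℝ, smul_smul, hix0]
      congr 1
      ring
    | succ j ih =>
      intro hj
      rw [Meas.X, if_neg, ih (by omega), Do_smul]
      · congr 1
        have hne : ix m (j + 1) ≠ 0 := by
          intro h
          have h1 := congrArg Fin.val h
          simp only [ix, Fin.val_zero] at h1
          rw [Nat.mod_eq_of_lt (by omega)] at h1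
          omega
        set v := vv D.u (4 * D.b ^ 2) j with hv
        set w := D.u (j + 1) with hw
        have hww : w ⬝ᵥ w = 1 := D.hu _
        have e1 : D.M (j + 1) * Mo D.R v 0 * D.M (j + 1) =
            Mo D.R (v - (2 * (w ⬝ᵥ v)) • w) 0 := by
          unfold Meas.M Mo
          rw [← hw]
          set g := D.R.f (ix m (j + 1))
          set f := D.R.f 0
          have hgE : ∀ x, g * Ev D.R x = - (Ev D.R x * g) := fun x => by rw [Ev_f, neg_neg]
          have hfE : ∀ x, f * Ev D.R x = - (Ev D.R x * f) := fun x => by rw [Ev_f, neg_neg]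
          have hgf : g * f = - (f * g) := f_ne D.R hne
          have hgg : g * g = -1 := f_sq D.R _
          have h2 : Ev D.R v * Ev D.R w = (2 * (w ⬝ᵥ v)) • 1 - Ev D.R w * Ev D.R v := by
            rw [← Ev_Ev D.R w v]; abel
          calc Ev D.R w * g * (Ev D.R v * f) * (Ev D.R w * g)
              = Ev D.R w * (g * Ev D.R v) * (f * Ev D.R w) * g := by simp only [mul_assoc]
            _ = Ev D.R w * Ev D.R v * (g * Ev D.R w) * f * g := by
                rw [hgE, hfE]; simp only [mul_neg, neg_mul, neg_neg, mul_assoc]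
            _ = - (Ev D.R w * (Ev D.R v * Ev D.R w) * (g * f) * g) := by
                rw [hgE]; simp only [mul_neg, neg_mul, mul_assoc]
            _ = Ev D.R w * (Ev D.R v * Ev D.R w) * f * (g * g) := by
                rw [hgf]; simp only [mul_neg, neg_mul, neg_neg, mul_assoc]
            _ = - (((2 * (w ⬝ᵥ v)) • Ev D.R w - Ev D.R v) * f) := by
                rw [hgg, h2, mul_sub, mul_smul_comm, mul_one, ← mul_assoc, Ev_sq D.R hww, one_mul,
                  mul_neg, mul_one]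
            _ = Ev D.R (v - (2 * (w ⬝ᵥ v)) • w) * f := by
                rw [Ev_sub, Ev_smul, ← neg_mul, neg_sub]
        unfold Do
        rw [e1, vv, ← hv, ← hw]
        unfold Mo
        rw [Ev_sub, Ev_sub, Ev_smul, Ev_smul, sub_mul, sub_mul, smul_mul_assoc, smul_mul_assoc,
          smul_sub, smul_smul]
        have h3 : (2 * D.a ^ 2) • (Ev D.R v * D.R.f 0) + (2 * D.b ^ 2) • (Ev D.R v * D.R.f 0) =
            Ev D.R v * D.R.f 0 := by
          rw [← add_smul]
          have : (2 : ℝ) * D.a ^ 2 + 2 * D.b ^ 2 = 1 := by linarith [D.hab]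
          rw [this, one_smul]
        have h4 : 2 * D.b ^ 2 * (2 * (w ⬝ᵥ v)) = 4 * D.b ^ 2 * (w ⬝ᵥ v) := by ring
        rw [h4, ← add_sub_assoc, h3]
      · rw [cnt_01]; omega
  have h1 : ∀ a ∈ ({0, 1} : Finset ℕ), a + (m + 1) ≤ m + 2 := by
    intro a ha
    simp only [mem_insert, mem_singleton] at ha
    omega
  have h2 := D.chi_spec h1
  have h3 := congrArg (fun Z : Matrix ι ι ℝ => Z.trace / Fintype.card ι) h2
  beta_reduce at h3
  rw [trace_scalar] at h3
  rw [← h3]
  have e : m + 2 = (m + 1) + 1 := rfl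
  rw [e, Meas.X, if_pos ((cnt_01 (m + 1)).2 (Or.inr rfl)), hX m le_rfl, Jo_smul]
  unfold Jo Meas.M
  have hix : ix m (m + 1) = 0 := Fin.ext (Nat.mod_self _)
  rw [hix]
  set v := vv D.u (4 * D.b ^ 2) m
  set w := D.u (m + 1)
  have e2 : Mo D.R w 0 * Mo D.R v 0 = Ev D.R w * Ev D.R v := by
    unfold Mo
    have hfE : D.R.f 0 * Ev D.R v = - (Ev D.R v * D.R.f 0) := by rw [Ev_f, neg_neg]
    calc Ev D.R w * D.R.f 0 * (Ev D.R v * D.R.f 0) = Ev D.R w * (D.R.f 0 * Ev D.R v) * D.R.f 0 := by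
          simp only [mul_assoc]
      _ = - (Ev D.R w * Ev D.R v * (D.R.f 0 * D.R.f 0)) := by
          rw [hfE]; simp only [mul_neg, neg_mul, mul_assoc]
      _ = Ev D.R w * Ev D.R v := by rw [f_sq]; simp
  rw [trace_smul, trace_smul, trace_add, trace_mul_comm (Mo D.R v 0), e2, trace_EE]
  have hc : (Fintype.card ι : ℝ) ≠ 0 := by exact_mod_cast Fintype.card_ne_zero
  simp only [smul_eq_mul]
  field_simp
  ring

/-- **The free-fermion sign laws.** -/
theorem exists_law (m : ℕ) (ws : List (Fin m → ℝ)) (hw : ∀ w ∈ ws, w ⬝ᵥ w ≠ 0)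
    (u₀ : Fin m → ℝ) (hu : u₀ ⬝ᵥ u₀ = 1) {γ : ℝ} (hγ : |γ| ≤ 1) :
    ∃ Q : Measure (ℤ → Bool), SignLaw (m + 1) Q ∧
      chg Q = (1 - (1 - γ ^ 2) * ((Rf ws)^[m + 1] u₀ ⬝ᵥ
        vv (fun i => (Rf ws)^[i] u₀) (1 - γ) m)) / 2 := by
  obtain ⟨ι, i1, i2, hne, ⟨R⟩⟩ := exists_rep (m + 1)
  obtain ⟨O, hO, hO2⟩ := impl_all R hw (finRotate (m + 1))
  have hγ1 := (abs_le.1 hγ).1
  have hγ2 := (abs_le.1 hγ).2
  set a : ℝ := √((1 + γ) / 4) with ha
  set b : ℝ := √((1 - γ) / 4) with hb
  have ha2 : a ^ 2 = (1 + γ) / 4 := Real.sq_sqrt (by linarith)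
  have hb2 : b ^ 2 = (1 - γ) / 4 := Real.sq_sqrt (by linarith)
  let D : Meas m ι :=
    { R := R
      u := fun i => (Rf ws)^[i] u₀
      hu := by
        intro i
        induction i with
        | zero => exact hu
        | succ i ih => rw [Function.iterate_succ_apply', Rf_dot hw, ih]
      a := a
      b := b
      hab := by rw [ha2, hb2]; ring
      O := O
      hO := hO
      hO' := mul_eq_one_comm.1 hO
      shift := by
        intro i
        rw [hO2, Function.iterate_succ_apply']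
        congr 1
        rw [finRotate_apply]
        refine Fin.ext ?_
        simp [ix, Fin.val_add] }
  obtain ⟨Q, hQ, hc⟩ := D.signLaw
  refine ⟨Q, hQ, ?_⟩
  rw [hc, D.chi_pair]
  have e1 : (4 * D.a * D.b) ^ 2 = 1 - γ ^ 2 := by
    change (4 * a * b) ^ 2 = _
    have : (4 * a * b) ^ 2 = 16 * a ^ 2 * b ^ 2 := by ring
    rw [this, ha2, hb2]
    ring
  have e2 : 4 * D.b ^ 2 = 1 - γ := by
    change 4 * b ^ 2 = _
    rw [hb2]
    ring
  rw [e1, e2]

end HC38bc51.FF
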