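import Mathlib
import Pool.Agent.Work.MP_38bc51_pr.FF.Impl

/-!
# The sign law of a linear isometry
-/

namespace HC38bc51.FF

open Matrix Finset MeasureTheory HC38bc51.HC Module
open scoped RealInnerProductSpace

variable {m : ℕ}

theorem toLp_inner (v w : Fin m → ℝ) :
    ⟪(WithLp.toLp 2 v : EuclideanSpace ℝ (Fin m)), WithLp.toLp 2 w⟫ = v ⬝ᵥ w := by
  simp [PiLp.inner_apply, dotProduct, mul_comm]

theorem refl_toLp (w v : Fin m → ℝ) :
    (Submodule.span ℝ {(WithLp.toLp 2 w : EuclideanSpace ℝ (Fin m))})ᗮ.reflection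
      (WithLp.toLp 2 v) = WithLp.toLp 2 (refl w v) := by
  rw [Submodule.reflection_orthogonal_apply, Submodule.reflection_singleton_apply]
  unfold refl
  have e1 : ‖(WithLp.toLp 2 w : EuclideanSpace ℝ (Fin m))‖ ^ 2 = w ⬝ᵥ w := by
    rw [← real_inner_self_eq_norm_sq, toLp_inner]
  rw [toLp_inner]
  simp only [RCLike.ofReal_real_eq_id, id_eq]
  rw [e1, WithLp.toLp_sub, WithLp.toLp_smul, neg_sub, two_smul ℕ, ← add_smul]
  congr 2
  ring

theorem Rf_exists (l : List (EuclideanSpace ℝ (Fin m))) :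
    ∃ ws : List (Fin m → ℝ), (∀ w ∈ ws, w ⬝ᵥ w ≠ 0) ∧ ∀ v : Fin m → ℝ,
      (l.map fun v => (Submodule.span ℝ {v})ᗮ.reflection).prod (WithLp.toLp 2 v) =
        WithLp.toLp 2 (Rf ws v) := by
  induction l with
  | nil => exact ⟨[], by simp, fun v => by simp [Rf]⟩
  | cons w l ih =>
    obtain ⟨ws, h1, h2⟩ := ih
    obtain ⟨w', rfl⟩ : ∃ w' : Fin m → ℝ, w = WithLp.toLp 2 w' := ⟨w.ofLp, rfl⟩
    by_cases h0 : w' ⬝ᵥ w' = 0
    · refine ⟨ws, h1, fun v => ?_⟩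
      rw [List.map_cons, List.prod_cons, LinearIsometryEquiv.coe_mul, Function.comp_apply, h2,
        refl_toLp]
      unfold refl
      rw [h0, div_zero, zero_smul, sub_zero]
    · refine ⟨w' :: ws, ?_, fun v => ?_⟩
      · intro x hx
        rcases List.mem_cons.1 hx with rfl | hx
        · exact h0
        · exact h1 x hx
      · rw [List.map_cons, List.prod_cons, LinearIsometryEquiv.coe_mul, Function.comp_apply, h2,
          refl_toLp, Rf]

theorem vv_eq (u : ℕ → Fin m → ℝ) (δ : ℝ) (j : ℕ) :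
    vv u δ j = u 0 - δ • ∑ i ∈ range j, (u (i + 1) ⬝ᵥ vv u δ i) • u (i + 1) := by
  induction j with
  | zero => simp [vv]
  | succ j ih =>
    rw [vv, sum_range_succ, smul_add, smul_smul, ← sub_sub, ← ih]

/-- The correlation is the value of a recursion. -/
theorem vv_rec (u : ℕ → Fin m → ℝ) (δ : ℝ) (h y : ℕ → ℝ)
    (hu : ∀ i j, u (i + j) ⬝ᵥ u i = h j) (n : ℕ)
    (hy : ∀ j ≤ n, y j = h (j + 1) - δ * ∑ i ∈ range j, y i * h (j - i)) :
    ∀ j ≤ n, u (j + 1) ⬝ᵥ vv u δ j = y j := by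
  intro j
  induction j using Nat.strong_induction_on with
  | _ j ih =>
    intro hj
    rw [vv_eq, hy j hj, dotProduct_sub, dotProduct_smul, dotProduct_sum, smul_eq_mul]
    have e1 : u (j + 1) ⬝ᵥ u 0 = h (j + 1) := by
      have := hu 0 (j + 1)
      rwa [zero_add] at this
    rw [e1]
    congr 2
    refine sum_congr rfl fun i hi => ?_
    have hi' := mem_range.1 hi
    rw [dotProduct_smul, ih i hi' (by omega), smul_eq_mul]
    congr 1
    have := hu (i + 1) (j - i)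
    have e : i + 1 + (j - i) = j + 1 := by omega
    rwa [e] at this

/-- The sign law of an orthogonal map of `ℝ^m`. -/
theorem exists_law_E (φ : EuclideanSpace ℝ (Fin m) ≃ₗᵢ[ℝ] EuclideanSpace ℝ (Fin m))
    (u₀ : EuclideanSpace ℝ (Fin m)) (hu : ‖u₀‖ = 1) {γ : ℝ} (hγ : |γ| ≤ 1) (y : ℕ → ℝ)
    (hy : ∀ j ≤ m, y j = ⟪u₀, φ^[j + 1] u₀⟫ -
      (1 - γ) * ∑ i ∈ range j, y i * ⟪u₀, φ^[j - i] u₀⟫) :
    ∃ Q : Measure (ℤ → Bool), SignLaw (m + 1) Q ∧ chg Q = (1 - (1 - γ ^ 2) * y m) / 2 := by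
  obtain ⟨l, -, hl⟩ := φ.reflections_generate_dim
  obtain ⟨ws, hws, hR⟩ := Rf_exists l
  obtain ⟨u, rfl⟩ : ∃ u : Fin m → ℝ, u₀ = WithLp.toLp 2 u := ⟨u₀.ofLp, rfl⟩
  have hu' : u ⬝ᵥ u = 1 := by
    rw [← toLp_inner, real_inner_self_eq_norm_sq, hu, one_pow]
  have hφ : ∀ v : Fin m → ℝ, φ (WithLp.toLp 2 v) = WithLp.toLp 2 (Rf ws v) := by
    intro v
    rw [hl]
    exact hR v
  have hφj : ∀ (j : ℕ) (v : Fin m → ℝ), φ^[j] (WithLp.toLp 2 v) =
      WithLp.toLp 2 ((Rf ws)^[j] v) := by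
    intro j v
    induction j with
    | zero => rfl
    | succ j ih => rw [Function.iterate_succ_apply', Function.iterate_succ_apply', ih, hφ]
  have hiso : ∀ (i : ℕ) (v w : EuclideanSpace ℝ (Fin m)), ⟪φ^[i] v, φ^[i] w⟫ = ⟪v, w⟫ := by
    intro i v w
    induction i with
    | zero => rfl
    | succ i ih => rw [Function.iterate_succ_apply', Function.iterate_succ_apply',
        LinearIsometryEquiv.inner_map_map, ih]
  obtain ⟨Q, hQ, hc⟩ := exists_law m ws hws u hu' hγ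
  refine ⟨Q, hQ, ?_⟩
  rw [hc]
  have key := vv_rec (fun i => (Rf ws)^[i] u) (1 - γ) (fun j => ⟪(WithLp.toLp 2 u :
    EuclideanSpace ℝ (Fin m)), φ^[j] (WithLp.toLp 2 u)⟫) y (fun i j => ?_) m hy m le_rfl
  · rw [key]
  · rw [← toLp_inner, ← hφj, ← hφj, Function.iterate_add_apply, hiso, real_inner_comm]

/-- The sign law of an isometry of an `m`-dimensional space. -/
theorem exists_law_F {F : Type*} [NormedAddCommGroup F] [InnerProductSpace ℝ F]
    [FiniteDimensional ℝ F] {m : ℕ} (hm : finrank ℝ F = m) (φ : F ≃ₗᵢ[ℝ] F) (u₀ : F)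
    (hu : ‖u₀‖ = 1) {γ : ℝ} (hγ : |γ| ≤ 1) (y : ℕ → ℝ)
    (hy : ∀ j ≤ m, y j = ⟪u₀, φ^[j + 1] u₀⟫ -
      (1 - γ) * ∑ i ∈ range j, y i * ⟪u₀, φ^[j - i] u₀⟫) :
    ∃ Q : Measure (ℤ → Bool), SignLaw (m + 1) Q ∧ chg Q = (1 - (1 - γ ^ 2) * y m) / 2 := by
  subst hm
  set e := (stdOrthonormalBasis ℝ F).repr with he
  have hψ : ∀ (j : ℕ), (e.symm.trans (φ.trans e))^[j] (e u₀) = e (φ^[j] u₀) := by
    intro j
    induction j with
    | zero => rfl
    | succ j ih =>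
      rw [Function.iterate_succ_apply', Function.iterate_succ_apply', ih]
      simp
  refine exists_law_E (e.symm.trans (φ.trans e)) (e u₀) (by simpa using hu) hγ y fun j hj => ?_
  rw [hy j hj, hψ]
  simp only [hψ, LinearIsometryEquiv.inner_map_map]

end HC38bc51.FF
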