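import Mathlib
import Pool.Agent.Work.MP_38bc51_pr.FF.Isom

/-!
# The sign laws of odd range from weights and cosines
-/

namespace HC38bc51.FF

open Finset MeasureTheory HC38bc51.HC Module
open scoped RealInnerProductSpace

theorem finrank_C (r : ℕ) : finrank ℝ (PiLp 2 (fun _ : Fin r => ℂ)) = 2 * r := by
  rw [LinearEquiv.finrank_eq (WithLp.linearEquiv 2 ℝ (Fin r → ℂ)), Module.finrank_pi_fintype]
  simp [mul_comm]

/-- the point of the circle over `c` -/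
noncomputable def zc (c : ℝ) : ℂ := ⟨c, √(1 - c ^ 2)⟩

theorem zc_normSq {c : ℝ} (hc : |c| ≤ 1) : Complex.normSq (zc c) = 1 := by
  have h1 : 0 ≤ 1 - c ^ 2 := by
    have := (sq_le_one_iff_abs_le_one c).2 hc
    linarith
  rw [zc, Complex.normSq_mk, Real.mul_self_sqrt h1]
  ring

theorem zc_norm {c : ℝ} (hc : |c| ≤ 1) : ‖zc c‖ = 1 := by
  have h := zc_normSq hc
  rw [Complex.normSq_eq_norm_sq] at h
  have h0 := norm_nonneg (zc c)
  nlinarith

theorem zc_sq {c : ℝ} (hc : |c| ≤ 1) : zc c ^ 2 = 2 * c * zc c - 1 := by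
  have h1 : 0 ≤ 1 - c ^ 2 := by
    have := (sq_le_one_iff_abs_le_one c).2 hc
    linarith
  have h2 := Real.mul_self_sqrt h1
  rw [sq]
  refine Complex.ext ?_ ?_
  · simp only [Complex.mul_re, Complex.sub_re, Complex.one_re, zc]
    rw [h2]
    simp
    ring
  · simp only [Complex.mul_im, Complex.sub_im, Complex.one_im, zc]
    simp
    ring

theorem zc_pow {c : ℝ} (hc : |c| ≤ 1) {t : ℕ → ℝ} (h0 : t 0 = 1) (h1 : t 1 = c)
    (h2 : ∀ j, t (j + 2) = 2 * c * t (j + 1) - t j) (j : ℕ) : (zc c ^ j).re = t j := by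
  have key : ∀ j, (zc c ^ j).re = t j ∧ (zc c ^ (j + 1)).re = t (j + 1) := by
    intro j
    induction j with
    | zero => exact ⟨by simp [h0], by simp [h1, zc]⟩
    | succ j ih =>
      refine ⟨ih.2, ?_⟩
      have e : zc c ^ (j + 1 + 1) = (2 * c : ℝ) * zc c ^ (j + 1) - zc c ^ j := by
        calc zc c ^ (j + 1 + 1) = zc c ^ 2 * zc c ^ j := by ring
          _ = _ := by rw [zc_sq hc]; push_cast; ring
      rw [e, Complex.sub_re, Complex.re_ofReal_mul, ih.1, ih.2]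
      exact (h2 j).symm
  exact (key j).1

/-- **The sign laws of odd range.** -/
theorem exists_law_spec (r : ℕ) (w c : Fin r → ℝ) (hw : ∀ l, 0 ≤ w l) (hs : ∑ l, w l = 1)
    (hc : ∀ l, |c l| ≤ 1) {γ : ℝ} (hγ : |γ| ≤ 1) (t : Fin r → ℕ → ℝ) (h0 : ∀ l, t l 0 = 1)
    (h1 : ∀ l, t l 1 = c l) (h2 : ∀ l j, t l (j + 2) = 2 * c l * t l (j + 1) - t l j)
    (y : ℕ → ℝ) (hy : ∀ j ≤ 2 * r, y j = (∑ l, w l * t l (j + 1)) -
      (1 - γ) * ∑ i ∈ range j, y i * ∑ l, w l * t l (j - i)) :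
    ∃ Q : Measure (ℤ → Bool), SignLaw (2 * r + 1) Q ∧
      chg Q = (1 - (1 - γ ^ 2) * y (2 * r)) / 2 := by
  set Z : Fin r → Circle := fun l => ⟨zc (c l), by simp [Submonoid.unitSphere, zc_norm (hc l)]⟩
    with hZ
  set φ : PiLp 2 (fun _ : Fin r => ℂ) ≃ₗᵢ[ℝ] PiLp 2 (fun _ : Fin r => ℂ) :=
    LinearIsometryEquiv.piLpCongrRight 2 fun l => rotation (Z l) with hφ
  set u₀ : PiLp 2 (fun _ : Fin r => ℂ) := WithLp.toLp 2 fun l => ((√(w l) : ℝ) : ℂ) with hu₀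
  have hpow : ∀ j, φ^[j] u₀ = WithLp.toLp 2 fun l => zc (c l) ^ j * ((√(w l) : ℝ) : ℂ) := by
    intro j
    induction j with
    | zero => simp [hu₀]
    | succ j ih =>
      rw [Function.iterate_succ_apply', ih]
      ext l
      change zc (c l) * (zc (c l) ^ j * ((√(w l) : ℝ) : ℂ)) = zc (c l) ^ (j + 1) * ((√(w l) : ℝ) : ℂ)
      ring
  have hin : ∀ j, ⟪u₀, φ^[j] u₀⟫ = ∑ l, w l * t l j := by
    intro j
    rw [hpow, hu₀, PiLp.inner_apply]
    refine sum_congr rfl fun l _ => ?_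
    rw [Complex.inner, Complex.conj_ofReal]
    have e : zc (c l) ^ j * ((√(w l) : ℝ) : ℂ) * ((√(w l) : ℝ) : ℂ) =
        ((w l : ℝ) : ℂ) * zc (c l) ^ j := by
      have : ((w l : ℝ) : ℂ) = ((√(w l) : ℝ) : ℂ) * ((√(w l) : ℝ) : ℂ) := by
        rw [← Complex.ofReal_mul, Real.mul_self_sqrt (hw l)]
      rw [this]
      ring
    change (zc (c l) ^ j * ((√(w l) : ℝ) : ℂ) * ((√(w l) : ℝ) : ℂ)).re = _
    rw [e, Complex.re_ofReal_mul, zc_pow (hc l) (h0 l) (h1 l) (h2 l)]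
  have hu : ‖u₀‖ = 1 := by
    have h := hin 0
    rw [Function.iterate_zero_apply, real_inner_self_eq_norm_sq] at h
    have h' : ∑ l, w l * t l 0 = 1 := by
      rw [← hs]
      exact sum_congr rfl fun l _ => by rw [h0, mul_one]
    rw [h'] at h
    have h0 := norm_nonneg u₀
    nlinarith
  refine exists_law_F (finrank_C r) φ u₀ hu hγ y fun j hj => ?_
  simp only [hin]
  exact hy j hj

end HC38bc51.FF
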