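import Mathlib
import Pool.Agent.Work.MP_38bc51_pr.FF.Spec

/-!
# The sign laws of odd range from integers
-/

namespace HC38bc51.FF

open Finset MeasureTheory HC38bc51.HC

/-- `T_0 = 1`, `T_1 = C`, `T_{j+2} = 2 C T_{j+1} - N2 T_j` -/
def T (C N2 : ℤ) : ℕ → ℤ
  | 0 => 1
  | 1 => C
  | j + 2 => 2 * C * T C N2 (j + 1) - N2 * T C N2 j

/-- the list of `n` consecutive terms -/
def chebs (C2 N2 : ℤ) : ℕ → ℤ → ℤ → List ℤ
  | 0, _, _ => []
  | n + 1, a, b => a :: chebs C2 N2 n b (C2 * b - N2 * a)

theorem chebs_eq (C N2 : ℤ) : ∀ n i, chebs (2 * C) N2 n (T C N2 i) (T C N2 (i + 1)) =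
    (List.range n).map fun k => T C N2 (i + k)
  | 0, i => rfl
  | n + 1, i => by
    have e : 2 * C * T C N2 (i + 1) - N2 * T C N2 i = T C N2 (i + 1 + 1) := rfl
    rw [chebs, e, chebs_eq C N2 n (i + 1), List.range_succ_eq_map, List.map_cons, List.map_map,
      add_zero]
    congr 1
    refine List.map_congr_left fun k _ => ?_
    simp only [Function.comp_apply]
    congr 1
    omega

/-- the term-by-term `W a + b` -/
def addm (W : ℤ) : List ℤ → List ℤ → List ℤ
  | a :: as, b :: bs => (W * a + b) :: addm W as bs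
  | _, _ => []

theorem addm_eq (W : ℤ) (n : ℕ) (f g : ℕ → ℤ) :
    addm W ((List.range n).map f) ((List.range n).map g) =
      (List.range n).map fun k => W * f k + g k := by
  induction n generalizing f g with
  | zero => rfl
  | succ n ih =>
    rw [List.range_succ_eq_map, List.map_cons, List.map_cons, List.map_cons, addm, List.map_map,
      List.map_map, List.map_map, ih]
    rfl

/-- the sequence `H_1, ..., H_n` -/
def Hs (N2 : ℤ) (n : ℕ) : List (ℤ × ℤ) → List ℤ
  | [] => List.replicate n 0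
  | (C, W) :: D => addm W (chebs (2 * C) N2 n C (2 * C * C - N2)) (Hs N2 n D)

/-- `H_j` -/
def Hf (N2 : ℤ) (D : List (ℤ × ℤ)) (j : ℕ) : ℤ := (D.map fun d => d.2 * T d.1 N2 j).sum

theorem Hs_eq (N2 : ℤ) (n : ℕ) (D : List (ℤ × ℤ)) :
    Hs N2 n D = (List.range n).map fun k => Hf N2 D (k + 1) := by
  induction D with
  | nil =>
    rw [Hs]
    refine List.ext_getElem (by simp) fun i h1 h2 => by simp [Hf]
  | cons d D ih =>
    obtain ⟨C, W⟩ := d
    have e1 : chebs (2 * C) N2 n C (2 * C * C - N2) =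
        (List.range n).map fun k => T C N2 (1 + k) := by
      have h := chebs_eq C N2 n 1
      have e2 : T C N2 (1 + 1) = 2 * C * C - N2 := by
        change 2 * C * C - N2 * 1 = _
        ring
      rw [e2] at h
      exact h
    rw [Hs, ih, e1, addm_eq]
    refine List.map_congr_left fun k _ => ?_
    rw [add_comm 1 k]
    simp [Hf]

/-- scaling by powers -/
def scl (s : ℤ) : ℤ → List ℤ → List ℤ
  | _, [] => []
  | p, a :: as => (p * a) :: scl s (p * s) as

theorem scl_eq (s : ℤ) : ∀ n i (f : ℕ → ℤ), scl s (s ^ i) ((List.range n).map f) =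
    (List.range n).map fun k => s ^ (i + k) * f k
  | 0, i, f => rfl
  | n + 1, i, f => by
    rw [List.range_succ_eq_map, List.map_cons, List.map_cons, scl, ← pow_succ, List.map_map,
      List.map_map, scl_eq s n (i + 1)]
    rw [add_zero]
    congr 1
    refine List.map_congr_left fun k _ => ?_
    simp only [Function.comp_apply]
    congr 2
    omega

/-- the scalar product of two lists -/
def dotL : List ℤ → List ℤ → ℤ
  | a :: as, b :: bs => a * b + dotL as bs
  | _, _ => 0

theorem dotL_eq (j n : ℕ) (hj : j ≤ n) (f g : ℕ → ℤ) :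
    dotL ((List.range j).map f) ((List.range n).map g) = ∑ i ∈ range j, f i * g i := by
  induction j generalizing n f g with
  | zero =>
    simp only [List.range_zero, List.map_nil, range_zero, sum_empty]
    cases (List.range n).map g <;> rfl
  | succ j ih =>
    obtain ⟨n, rfl⟩ : ∃ k, n = k + 1 := ⟨n - 1, by omega⟩
    rw [List.range_succ_eq_map, List.range_succ_eq_map, List.map_cons, List.map_cons, dotL,
      List.map_map, List.map_map, ih n (by omega), sum_range_succ', add_comm]
    rfl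

/-- the recursion; the list is reversed -/
def ys (Δ : ℤ) (H : List ℤ) : List ℤ → List ℤ → List ℤ
  | [], acc => acc
  | h :: rest, acc => ys Δ H rest ((h - Δ * dotL acc H) :: acc)

/-- the reversed list `y (j - 1), ..., y 0` -/
def accL (y : ℕ → ℤ) : ℕ → List ℤ
  | 0 => []
  | j + 1 => y j :: accL y j

theorem accL_eq (y : ℕ → ℤ) (j : ℕ) :
    accL y j = (List.range j).map fun i => y (j - 1 - i) := by
  induction j with
  | zero => rfl
  | succ j ih =>
    rw [accL, ih, List.range_succ_eq_map, List.map_cons, List.map_map]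
    refine congrArg₂ _ ?_ (List.map_congr_left fun k _ => ?_)
    · simp
    · simp only [Function.comp_apply]
      congr 1
      omega

theorem ys_eq (Δ : ℤ) (h y : ℕ → ℤ)
    (hy : ∀ j, y j = h j - Δ * ∑ i ∈ range j, y i * h (j - 1 - i)) (n : ℕ) :
    ∀ k j, j + k ≤ n → ys Δ ((List.range n).map h) ((List.range k).map fun i => h (j + i))
      (accL y j) = accL y (j + k)
  | 0, j, _ => rfl
  | k + 1, j, hk => by
    rw [List.range_succ_eq_map, List.map_cons, ys, List.map_map]
    have e1 : h (j + 0) - Δ * dotL (accL y j) ((List.range n).map h) = y j := by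
      rw [accL_eq, dotL_eq j n (by omega), hy j, add_zero]
      congr 2
      rw [← sum_range_reflect]
      refine sum_congr rfl fun i hi => ?_
      have hi' := mem_range.1 hi
      have : j - 1 - (j - 1 - i) = i := by omega
      rw [this]
    rw [e1]
    have e2 := ys_eq Δ h y hy n k (j + 1) (by omega)
    have e3 : j + 1 + k = j + (k + 1) := by omega
    rw [e3] at e2
    rw [← e2]
    congr 1
    refine List.map_congr_left fun i _ => ?_
    simp only [Function.comp_apply]
    congr 1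
    omega

/-- the terms of the recursion, by strong recursion -/
def yf (Δ : ℤ) (h : ℕ → ℤ) (n : ℕ) : ℤ :=
  h n - Δ * ∑ i : Fin n, yf Δ h i * h (n - 1 - i)
termination_by n
decreasing_by exact i.2

theorem yf_eq (Δ : ℤ) (h : ℕ → ℤ) (j : ℕ) :
    yf Δ h j = h j - Δ * ∑ i ∈ range j, yf Δ h i * h (j - 1 - i) := by
  rw [yf, ← Fin.sum_univ_eq_sum_range (fun i => yf Δ h i * h (j - 1 - i)) j]

/-- the check -/
def check (N S G Δ p q : ℤ) (D : List (ℤ × ℤ)) : Bool :=
  let m := 2 * D.length
  let H := scl (S * G) 1 (Hs (N * N) (m + 1) D)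
  decide (0 < N) && decide (0 < S) && decide (0 < G) && decide (0 ≤ Δ) && decide (Δ ≤ 2 * G) &&
  decide (0 < q) && D.all (fun d => decide (-N ≤ d.1) && decide (d.1 ≤ N) && decide (0 ≤ d.2)) &&
  decide ((D.map fun d => d.2).sum = S) &&
  decide (p * (G ^ (m + 2) * (S * N) ^ (m + 1)) ≤
    q * (((2 * G - Δ) * Δ) * (ys Δ H H []).headD 0))

theorem law_of_check {N S G Δ p q : ℤ} {D : List (ℤ × ℤ)} (hD : check N S G Δ p q D = true) :
    ∃ Q : Measure (ℤ → Bool), SignLaw (2 * D.length + 1) Q ∧ chg Q ≤ (1 - p / q) / 2 := by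
  unfold check at hD
  simp only [Bool.and_eq_true, decide_eq_true_eq, List.all_eq_true] at hD
  obtain ⟨⟨⟨⟨⟨⟨⟨⟨hN, hS⟩, hG⟩, hΔ0⟩, hΔ⟩, hq⟩, hall⟩, hsum⟩, hmain⟩ := hD
  set m := 2 * D.length with hm
  -- the integers
  set Hn : ℕ → ℤ := fun k => (S * G) ^ k * Hf (N * N) D (k + 1) with hHn
  have eH : scl (S * G) 1 (Hs (N * N) (m + 1) D) = (List.range (m + 1)).map Hn := by
    have h := scl_eq (S * G) (m + 1) 0 (fun k => Hf (N * N) D (k + 1))
    rw [pow_zero, ← Hs_eq] at h
    rw [h]
    refine List.map_congr_left fun k _ => ?_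
    rw [zero_add]
  have eY : ys Δ ((List.range (m + 1)).map Hn) ((List.range (m + 1)).map Hn) [] =
      accL (yf Δ Hn) (m + 1) := by
    have h := ys_eq Δ Hn (yf Δ Hn) (yf_eq Δ Hn) (m + 1) (m + 1) 0 (by omega)
    rw [zero_add] at h
    rw [← h]
    simp only [zero_add]
    rfl
  rw [eH, eY, accL, List.headD_cons] at hmain
  -- the reals
  have hN' : (0 : ℝ) < N := by exact_mod_cast hN
  have hS' : (0 : ℝ) < S := by exact_mod_cast hS
  have hG' : (0 : ℝ) < G := by exact_mod_cast hG
  have hq' : (0 : ℝ) < q := by exact_mod_cast hq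
  set γ : ℝ := 1 - Δ / G with hγdef
  have hδ : 1 - γ = Δ / G := by rw [hγdef]; ring
  have hγ : |γ| ≤ 1 := by
    have h1 : (0 : ℝ) ≤ Δ / G := div_nonneg (by exact_mod_cast hΔ0) hG'.le
    have h2 : (Δ : ℝ) / G ≤ 2 := by
      rw [div_le_iff₀ hG']
      exact_mod_cast hΔ
    rw [abs_le]
    constructor <;> linarith
  have hmem : ∀ l : Fin D.length, D[l.val] ∈ D := fun l => List.getElem_mem _
  have hsumR : ∀ f : ℤ × ℤ → ℝ, ∑ l : Fin D.length, f D[l.val] = (D.map f).sum :=
    fun f => Fin.sum_univ_fun_getElem D f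
  have hcast : ∀ j, (∑ l : Fin D.length, ((D[l.val].2 : ℝ) / S) *
      ((T D[l.val].1 (N * N) j : ℝ) / N ^ j)) = Hf (N * N) D j / (S * N ^ j) := by
    intro j
    rw [hsumR fun d => ((d.2 : ℝ) / S) * ((T d.1 (N * N) j : ℝ) / N ^ j)]
    unfold Hf
    generalize D = D'
    induction D' with
    | nil => simp
    | cons d D' ih =>
      rw [List.map_cons, List.sum_cons, ih, List.map_cons, List.sum_cons]
      push_cast
      field_simp
  have hyR : ∀ j, ((yf Δ Hn j : ℝ) / ((S : ℝ) ^ (j + 1) * G ^ j * N ^ (j + 1))) =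
      Hf (N * N) D (j + 1) / (S * N ^ (j + 1)) - (1 - γ) *
        ∑ i ∈ range j, ((yf Δ Hn i : ℝ) / ((S : ℝ) ^ (i + 1) * G ^ i * N ^ (i + 1))) *
          (Hf (N * N) D (j - i) / (S * N ^ (j - i))) := by
    intro j
    rw [yf_eq Δ Hn j]
    push_cast
    rw [sub_div, hδ, mul_sum, mul_sum, sum_div]
    congr 1
    · rw [hHn]
      push_cast
      field_simp
      ring
    · refine sum_congr rfl fun i hi => ?_
      have hi' := mem_range.1 hi
      obtain ⟨k, rfl⟩ : ∃ k, j = i + 1 + k := ⟨j - (i + 1), by omega⟩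
      have e1 : i + 1 + k - 1 - i = k := by omega
      have e2 : i + 1 + k - i = k + 1 := by omega
      rw [e1, e2]
      simp only [hHn]
      push_cast
      field_simp
      ring
  obtain ⟨Q, hQ, hc⟩ := exists_law_spec D.length (fun l => (D[l.val].2 : ℝ) / S)
    (fun l => (D[l.val].1 : ℝ) / N) (fun l => by
      have := ((hall _ (hmem l)).2)
      exact div_nonneg (by exact_mod_cast this) hS'.le)
    (by
      rw [hsumR fun d => (d.2 : ℝ) / S]
      have h1 : (D.map fun d => (d.2 : ℝ) / S).sum = ((D.map fun d => d.2).sum : ℤ) / (S : ℝ) := by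
        generalize D = D'
        induction D' with
        | nil => simp
        | cons d D' ih =>
          rw [List.map_cons, List.sum_cons, ih, List.map_cons, List.sum_cons]
          push_cast
          ring
      rw [h1, hsum, div_self hS'.ne'])
    (fun l => by
      obtain ⟨⟨h1, h2⟩, -⟩ := hall _ (hmem l)
      have h1' : -(N : ℝ) ≤ D[l.val].1 := by exact_mod_cast h1
      have h2' : (D[l.val].1 : ℝ) ≤ N := by exact_mod_cast h2
      rw [abs_le, le_div_iff₀ hN', div_le_iff₀ hN']
      constructor <;> linarith)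
    hγ (fun l j => (T D[l.val].1 (N * N) j : ℝ) / N ^ j) (fun l => by simp [T])
    (fun l => by simp [T])
    (fun l j => by
      rw [T]
      push_cast
      field_simp
      ring)
    (fun j => (yf Δ Hn j : ℝ) / ((S : ℝ) ^ (j + 1) * G ^ j * N ^ (j + 1)))
    (fun j _ => by
      simp only [hcast]
      exact hyR j)
  refine ⟨Q, hQ, ?_⟩
  rw [hc]
  have hγ2 : 1 - γ ^ 2 = ((2 * G - Δ) * Δ) / G ^ 2 := by
    rw [hγdef]
    field_simp
    ring
  have hfin : (p : ℝ) / q ≤ (1 - γ ^ 2) *
      ((yf Δ Hn m : ℝ) / ((S : ℝ) ^ (m + 1) * G ^ m * N ^ (m + 1))) := by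
    rw [hγ2, div_mul_div_comm, div_le_div_iff₀ hq' (by positivity)]
    have h : (p : ℝ) * (G ^ (m + 2) * (S * N) ^ (m + 1)) ≤
        q * (((2 * G - Δ) * Δ) * yf Δ Hn m) := by exact_mod_cast hmain
    calc (p : ℝ) * (G ^ 2 * ((S : ℝ) ^ (m + 1) * G ^ m * N ^ (m + 1)))
        = (p : ℝ) * (G ^ (m + 2) * (S * N) ^ (m + 1)) := by rw [mul_pow]; ring
      _ ≤ q * (((2 * G - Δ) * Δ) * yf Δ Hn m) := h
      _ = _ := by ring
  linarith

end HC38bc51.FF
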