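import Mathlib
import Pool.Agent.Work.MP_38bc51_pr.FF.Chk

/-!
# The check, in a form which the kernel evaluates quickly
-/

namespace HC38bc51.FF

open Finset MeasureTheory HC38bc51.HC

/-- evaluate a natural number first -/
def fN {α : Type} (n : ℕ) (f : ℕ → α) : α :=
  match n + 1 with
  | 0 => f 0
  | k + 1 => f k

/-- evaluate an integer first -/
def fI {α : Type} (n : ℤ) (f : ℤ → α) : α :=
  match n with
  | .ofNat k => fN k fun k => f (.ofNat k)
  | .negSucc k => fN k fun k => f (.negSucc k)

theorem fN_eq {α : Type} (n : ℕ) (f : ℕ → α) : fN n f = f n := rfl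

theorem fI_eq {α : Type} (n : ℤ) (f : ℤ → α) : fI n f = f n := by
  cases n <;> rfl

/-- evaluate a list first -/
def fL {α : Type} : List ℤ → (List ℤ → α) → α
  | [], f => f []
  | a :: as, f => fI a fun a => fL as fun as => f (a :: as)

theorem fL_eq {α : Type} (l : List ℤ) (f : List ℤ → α) : fL l f = f l := by
  induction l generalizing f with
  | nil => rfl
  | cons a as ih => rw [fL, fI_eq, ih]

/-- the list of `n` consecutive terms, times `W`, plus a list -/
def cadd (C2 N2 W : ℤ) : List ℤ → ℤ → ℤ → List ℤ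
  | [], _, _ => []
  | s :: ss, a, b => fI (C2 * b - N2 * a) fun c => fI (W * a + s) fun t =>
      t :: cadd C2 N2 W ss b c

theorem cadd_eq (C2 N2 W : ℤ) (ss : List ℤ) (a b : ℤ) :
    cadd C2 N2 W ss a b = addm W (chebs C2 N2 ss.length a b) ss := by
  induction ss generalizing a b with
  | nil => rfl
  | cons s ss ih => rw [cadd, fI_eq, fI_eq, ih, List.length_cons, chebs, addm]

/-- the sums `H_1, ..., H_n` -/
def HsF {α : Type} (N2 : ℤ) (f : List ℤ → α) : List (ℤ × ℤ) → List ℤ → α
  | [], acc => f acc
  | (C, W) :: D, acc => fI (2 * C) fun C2 => fI (C2 * C - N2) fun b =>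
      fL (cadd C2 N2 W acc C b) fun acc => HsF N2 f D acc

theorem chebs_length (C2 N2 : ℤ) (n : ℕ) (a b : ℤ) : (chebs C2 N2 n a b).length = n := by
  induction n generalizing a b with
  | zero => rfl
  | succ n ih => rw [chebs, List.length_cons, ih]

theorem addm_length (W : ℤ) (as bs : List ℤ) (h : as.length = bs.length) :
    (addm W as bs).length = bs.length := by
  induction as generalizing bs with
  | nil => cases bs with
    | nil => rfl
    | cons b bs => simp at h
  | cons a as ih => cases bs with
    | nil => simp at h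
    | cons b bs => rw [addm, List.length_cons, List.length_cons, ih bs (by simpa using h)]

theorem HsF_eq {α : Type} (N2 : ℤ) (f : List ℤ → α) (n : ℕ) (D : List (ℤ × ℤ)) :
    ∀ acc : List ℤ, acc.length = n → HsF N2 f D acc = f (D.foldl (fun a d =>
      addm d.2 (chebs (2 * d.1) N2 n d.1 (2 * d.1 * d.1 - N2)) a) acc) := by
  induction D with
  | nil => intro acc _; rfl
  | cons d D ih =>
    intro acc hacc
    obtain ⟨C, W⟩ := d
    rw [HsF, fI_eq, fI_eq, fL_eq, cadd_eq, ih, hacc, List.foldl_cons]
    rw [addm_length _ _ _ (by rw [chebs_length]), hacc]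

/-- the scalar product of two lists, with evaluated partial sums -/
def dotF {α : Type} (f : ℤ → α) : List ℤ → List ℤ → ℤ → α
  | a :: as, b :: bs, s => fI (s + a * b) fun s => dotF f as bs s
  | [], _, s => f s
  | _, [], s => f s

theorem dotF_eq {α : Type} (f : ℤ → α) (as bs : List ℤ) (s : ℤ) :
    dotF f as bs s = f (s + dotL as bs) := by
  induction as generalizing bs s with
  | nil => cases bs <;> simp [dotF, dotL]
  | cons a as ih => cases bs with
    | nil => simp [dotF, dotL]
    | cons b bs => rw [dotF, fI_eq, ih, dotL, add_assoc]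

/-- The recursion, with evaluated terms. -/
def ysF (Δ : ℤ) (H : List ℤ) : List ℤ → List ℤ → ℤ
  | [], acc => acc.headD 0
  | h :: rest, acc => dotF (fun s => fI (h - Δ * s) fun y => ysF Δ H rest (y :: acc)) acc H 0

theorem ysF_eq (Δ : ℤ) (H rest acc : List ℤ) :
    ysF Δ H rest acc = (ys Δ H rest acc).headD 0 := by
  induction rest generalizing acc with
  | nil => rfl
  | cons h rest ih => rw [ysF, dotF_eq, fI_eq, zero_add, ih, ys]

/-- the last term of the recursion -/
def lastY (N S G Δ : ℤ) (D : List (ℤ × ℤ)) : ℤ :=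
  fI (N * N) fun N2 => fI (S * G) fun s =>
    HsF N2 (fun H => fL (scl s 1 H) fun H => ysF Δ H H []) D (List.replicate (2 * D.length + 1) 0)

theorem addm_comm (n : ℕ) (W W' : ℤ) (a b c : List ℤ) (ha : a.length = n) (hb : b.length = n)
    (hc : c.length = n) : addm W a (addm W' b c) = addm W' b (addm W a c) := by
  induction n generalizing a b c with
  | zero =>
    rw [List.length_eq_zero_iff] at ha hb hc
    subst ha hb hc
    rfl
  | succ n ih =>
    cases a with
    | nil => simp at ha
    | cons a as => cases b with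
      | nil => simp at hb
      | cons b bs => cases c with
        | nil => simp at hc
        | cons c cs =>
          rw [addm, addm, addm, addm, ih as bs cs (by simpa using ha) (by simpa using hb)
            (by simpa using hc)]
          congr 1
          ring

theorem foldl_Hs (N2 : ℤ) (n : ℕ) (D : List (ℤ × ℤ)) :
    D.foldl (fun a d => addm d.2 (chebs (2 * d.1) N2 n d.1 (2 * d.1 * d.1 - N2)) a)
      (List.replicate n 0) = Hs N2 n D := by
  have hlen : ∀ D : List (ℤ × ℤ), (Hs N2 n D).length = n := by
    intro D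
    rw [Hs_eq]
    simp
  have key : ∀ (D : List (ℤ × ℤ)) (acc : List ℤ), acc.length = n → ∀ (W : ℤ) (c : List ℤ),
      c.length = n →
      D.foldl (fun a d => addm d.2 (chebs (2 * d.1) N2 n d.1 (2 * d.1 * d.1 - N2)) a)
        (addm W c acc) = addm W c
      (D.foldl (fun a d => addm d.2 (chebs (2 * d.1) N2 n d.1 (2 * d.1 * d.1 - N2)) a) acc) := by
    intro D
    induction D with
    | nil => intro acc _ W c _; rfl
    | cons d D ih =>
      intro acc hacc W c hc
      rw [List.foldl_cons, List.foldl_cons, addm_comm n _ _ _ _ _ (chebs_length _ _ _ _ _) hc hacc,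
        ih _ (by rw [addm_length _ _ _ (by rw [chebs_length, hacc]), hacc]) _ _ hc]
  induction D with
  | nil => rfl
  | cons d D ih =>
    obtain ⟨C, W⟩ := d
    rw [List.foldl_cons, Hs, key D _ (by simp) _ _ (chebs_length _ _ _ _ _), ih]

theorem lastY_eq (N S G Δ : ℤ) (D : List (ℤ × ℤ)) :
    lastY N S G Δ D = (ys Δ (scl (S * G) 1 (Hs (N * N) (2 * D.length + 1) D))
      (scl (S * G) 1 (Hs (N * N) (2 * D.length + 1) D)) []).headD 0 := by
  unfold lastY
  rw [fI_eq, fI_eq, HsF_eq (n := 2 * D.length + 1) _ _ _ _ (by simp), fL_eq, ysF_eq, foldl_Hs]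

/-- the check -/
def chk (N S G Δ p q : ℤ) (D : List (ℤ × ℤ)) : Bool :=
  decide (0 < N) && decide (0 < S) && decide (0 < G) && decide (0 ≤ Δ) && decide (Δ ≤ 2 * G) &&
  decide (0 < q) && D.all (fun d => decide (-N ≤ d.1) && decide (d.1 ≤ N) && decide (0 ≤ d.2)) &&
  decide ((D.map fun d => d.2).sum = S) &&
  decide (p * (G ^ (2 * D.length + 2) * (S * N) ^ (2 * D.length + 1)) ≤
    q * (((2 * G - Δ) * Δ) * lastY N S G Δ D))

theorem check_of_chk {N S G Δ p q : ℤ} {D : List (ℤ × ℤ)} (h : chk N S G Δ p q D = true) :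
    check N S G Δ p q D = true := by
  unfold chk at h
  unfold check
  rw [lastY_eq] at h
  exact h

end HC38bc51.FF
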