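import Mathlib
import Pool.Agent.Work.MP_38bc51_pr.FF.Fast

/-!
# The sign laws of even range
-/

namespace HC38bc51.FF

open Finset MeasureTheory HC38bc51.HC Module
open scoped RealInnerProductSpace

/-- multiplication by a sign -/
noncomputable def sgE (b : Bool) : ℝ ≃ₗᵢ[ℝ] ℝ :=
  if b then LinearIsometryEquiv.refl ℝ ℝ else LinearIsometryEquiv.neg ℝ

/-- the sign -/
def eb (b : Bool) : ℤ := if b then 1 else -1

theorem sgE_apply (b : Bool) (x : ℝ) : sgE b x = eb b * x := by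
  cases b <;> simp [sgE, eb]

theorem eb_sq (b : Bool) : eb b * eb b = 1 := by
  cases b <;> simp [eb]

theorem finrank_CR (r : ℕ) :
    finrank ℝ (WithLp 2 (PiLp 2 (fun _ : Fin r => ℂ) × ℝ)) = 2 * r + 1 := by
  rw [LinearEquiv.finrank_eq (WithLp.linearEquiv 2 ℝ (PiLp 2 (fun _ : Fin r => ℂ) × ℝ)),
    Module.finrank_prod, finrank_C, Module.finrank_self]

/-- **The sign laws of even range.** -/
theorem exists_law_even (r : ℕ) (w c : Fin r → ℝ) (hw : ∀ l, 0 ≤ w l) (w' : ℝ) (hw' : 0 ≤ w')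
    (b : Bool) (hs : (∑ l, w l) + w' = 1)
    (hc : ∀ l, |c l| ≤ 1) {γ : ℝ} (hγ : |γ| ≤ 1) (t : Fin r → ℕ → ℝ) (h0 : ∀ l, t l 0 = 1)
    (h1 : ∀ l, t l 1 = c l) (h2 : ∀ l j, t l (j + 2) = 2 * c l * t l (j + 1) - t l j)
    (y : ℕ → ℝ) (hy : ∀ j ≤ 2 * r + 1, y j =
      ((∑ l, w l * t l (j + 1)) + w' * (eb b : ℝ) ^ (j + 1)) -
      (1 - γ) * ∑ i ∈ range j, y i * ((∑ l, w l * t l (j - i)) + w' * (eb b : ℝ) ^ (j - i))) :
    ∃ Q : Measure (ℤ → Bool), SignLaw (2 * r + 1 + 1) Q ∧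
      chg Q = (1 - (1 - γ ^ 2) * y (2 * r + 1)) / 2 := by
  set Z : Fin r → Circle := fun l => ⟨zc (c l), by simp [Submonoid.unitSphere, zc_norm (hc l)]⟩
    with hZ
  set φ₁ : PiLp 2 (fun _ : Fin r => ℂ) ≃ₗᵢ[ℝ] PiLp 2 (fun _ : Fin r => ℂ) :=
    LinearIsometryEquiv.piLpCongrRight 2 fun l => rotation (Z l) with hφ₁
  set u₁ : PiLp 2 (fun _ : Fin r => ℂ) := WithLp.toLp 2 fun l => ((√(w l) : ℝ) : ℂ) with hu₁
  have hpow : ∀ j, φ₁^[j] u₁ = WithLp.toLp 2 fun l => zc (c l) ^ j * ((√(w l) : ℝ) : ℂ) := by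
    intro j
    induction j with
    | zero => simp [hu₁]
    | succ j ih =>
      rw [Function.iterate_succ_apply', ih]
      ext l
      change zc (c l) * (zc (c l) ^ j * ((√(w l) : ℝ) : ℂ)) = zc (c l) ^ (j + 1) * ((√(w l) : ℝ) : ℂ)
      ring
  have hin₁ : ∀ j, ⟪u₁, φ₁^[j] u₁⟫ = ∑ l, w l * t l j := by
    intro j
    rw [hpow, hu₁, PiLp.inner_apply]
    refine sum_congr rfl fun l _ => ?_
    rw [Complex.inner, Complex.conj_ofReal]
    have e : zc (c l) ^ j * ((√(w l) : ℝ) : ℂ) * ((√(w l) : ℝ) : ℂ) =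
        ((w l : ℝ) : ℂ) * zc (c l) ^ j := by
      have : ((w l : ℝ) : ℂ) = ((√(w l) : ℝ) : ℂ) * ((√(w l) : ℝ) : ℂ) := by
        rw [← Complex.ofReal_mul, Real.mul_self_sqrt (hw l)]
      rw [this]
      ring
    change (zc (c l) ^ j * ((√(w l) : ℝ) : ℂ) * ((√(w l) : ℝ) : ℂ)).re = _
    rw [e, Complex.re_ofReal_mul, zc_pow (hc l) (h0 l) (h1 l) (h2 l)]
  set φ : WithLp 2 (PiLp 2 (fun _ : Fin r => ℂ) × ℝ) ≃ₗᵢ[ℝ]
      WithLp 2 (PiLp 2 (fun _ : Fin r => ℂ) × ℝ) :=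
    LinearIsometryEquiv.withLpProdCongr 2 φ₁ (sgE b) with hφ
  set u₀ : WithLp 2 (PiLp 2 (fun _ : Fin r => ℂ) × ℝ) := WithLp.toLp 2 (u₁, √w') with hu₀
  have hpow' : ∀ j, φ^[j] u₀ = WithLp.toLp 2 (φ₁^[j] u₁, (eb b : ℝ) ^ j * √w') := by
    intro j
    induction j with
    | zero => simp [hu₀]
    | succ j ih =>
      rw [Function.iterate_succ_apply', ih, Function.iterate_succ_apply']
      change WithLp.toLp 2 (φ₁ (φ₁^[j] u₁), sgE b ((eb b : ℝ) ^ j * √w')) = _
      rw [sgE_apply, pow_succ']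
      congr 2
      ring
  have hin : ∀ j, ⟪u₀, φ^[j] u₀⟫ = (∑ l, w l * t l j) + w' * (eb b : ℝ) ^ j := by
    intro j
    rw [hpow', hu₀, WithLp.prod_inner_apply]
    change ⟪u₁, φ₁^[j] u₁⟫ + ⟪√w', (eb b : ℝ) ^ j * √w'⟫ = _
    rw [hin₁]
    congr 1
    change ((eb b : ℝ) ^ j * √w') * √w' = _
    rw [mul_assoc, Real.mul_self_sqrt hw', mul_comm]
  have hu : ‖u₀‖ = 1 := by
    have h := hin 0
    rw [Function.iterate_zero_apply, real_inner_self_eq_norm_sq] at h
    have h' : (∑ l, w l * t l 0) + w' * (eb b : ℝ) ^ 0 = 1 := by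
      rw [← hs, pow_zero, mul_one]
      congr 1
      exact sum_congr rfl fun l _ => by rw [h0, mul_one]
    rw [h'] at h
    have h0 := norm_nonneg u₀
    nlinarith
  refine exists_law_F (finrank_CR r) φ u₀ hu hγ y fun j hj => ?_
  simp only [hin]
  exact hy j hj

theorem T_eb (b : Bool) (N : ℤ) (j : ℕ) : T (eb b * N) (N * N) j = (eb b * N) ^ j := by
  have key : ∀ j, T (eb b * N) (N * N) j = (eb b * N) ^ j ∧
      T (eb b * N) (N * N) (j + 1) = (eb b * N) ^ (j + 1) := by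
    intro j
    induction j with
    | zero => exact ⟨by simp [T], by simp [T]⟩
    | succ j ih =>
      refine ⟨ih.2, ?_⟩
      have e : T (eb b * N) (N * N) (j + 1 + 1) =
        2 * (eb b * N) * T (eb b * N) (N * N) (j + 1) - N * N * T (eb b * N) (N * N) j := rfl
      rw [e, ih.1, ih.2]
      have e2 : N * N = (eb b * N) * (eb b * N) := by
        calc N * N = (eb b * eb b) * (N * N) := by rw [eb_sq, one_mul]
          _ = _ := by ring
      rw [e2]
      ring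
  exact (key j).1

/-- the last term of the recursion -/
def lastE (m : ℕ) (N S G Δ : ℤ) (D : List (ℤ × ℤ)) : ℤ :=
  fI (N * N) fun N2 => fI (S * G) fun s =>
    HsF N2 (fun H => fL (scl s 1 H) fun H => ysF Δ H H []) D (List.replicate (m + 1) 0)

theorem lastE_eq (m : ℕ) (N S G Δ : ℤ) (D : List (ℤ × ℤ)) :
    lastE m N S G Δ D = (ys Δ (scl (S * G) 1 (Hs (N * N) (m + 1) D))
      (scl (S * G) 1 (Hs (N * N) (m + 1) D)) []).headD 0 := by
  unfold lastE
  rw [fI_eq, fI_eq, HsF_eq (n := m + 1) _ _ _ _ (by simp), fL_eq, ysF_eq, foldl_Hs]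

/-- the check; the last real eigenvalue is `eb b`, with weight `W` -/
def chkE (N S G Δ p q W : ℤ) (b : Bool) (D : List (ℤ × ℤ)) : Bool :=
  decide (0 < N) && decide (0 < S) && decide (0 < G) && decide (0 ≤ Δ) && decide (Δ ≤ 2 * G) &&
  decide (0 < q) && D.all (fun d => decide (-N ≤ d.1) && decide (d.1 ≤ N) && decide (0 ≤ d.2)) &&
  decide (0 ≤ W) && decide ((D.map fun d => d.2).sum + W = S) &&
  decide (p * (G ^ (2 * D.length + 1 + 2) * (S * N) ^ (2 * D.length + 1 + 1)) ≤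
    q * (((2 * G - Δ) * Δ) * lastE (2 * D.length + 1) N S G Δ ((eb b * N, W) :: D)))

theorem law_of_chkE {N S G Δ p q W : ℤ} {b : Bool} {D : List (ℤ × ℤ)}
    (hD : chkE N S G Δ p q W b D = true) :
    ∃ Q : Measure (ℤ → Bool), SignLaw (2 * D.length + 1 + 1) Q ∧ chg Q ≤ (1 - p / q) / 2 := by
  unfold chkE at hD
  simp only [Bool.and_eq_true, decide_eq_true_eq, List.all_eq_true] at hD
  obtain ⟨⟨⟨⟨⟨⟨⟨⟨⟨hN, hS⟩, hG⟩, hΔ0⟩, hΔ⟩, hq⟩, hall⟩, hW⟩, hsum⟩, hmain⟩ := hD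
  rw [lastE_eq] at hmain
  set m := 2 * D.length + 1 with hm
  set D' : List (ℤ × ℤ) := (eb b * N, W) :: D with hD'
  -- the integers
  set Hn : ℕ → ℤ := fun k => (S * G) ^ k * Hf (N * N) D' (k + 1) with hHn
  have eH : scl (S * G) 1 (Hs (N * N) (m + 1) D') = (List.range (m + 1)).map Hn := by
    have h := scl_eq (S * G) (m + 1) 0 (fun k => Hf (N * N) D' (k + 1))
    rw [pow_zero, ← Hs_eq] at h
    rw [h]
    refine List.map_congr_left fun k _ => ?_
    rw [zero_add]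
  have eY : ys Δ ((List.range (m + 1)).map Hn) ((List.range (m + 1)).map Hn) [] =
      accL (yf Δ Hn) (m + 1) := by
    have h := ys_eq Δ Hn (yf Δ Hn) (yf_eq Δ Hn) (m + 1) (m + 1) 0 (by omega)
    rw [zero_add] at h
    rw [← h]
    simp only [zero_add]
    rfl
  rw [eH, eY, accL, List.headD_cons] at hmain
  -- the reals
  have hN' : (0 : ℝ) < N := by exact_mod_cast hN
  have hS' : (0 : ℝ) < S := by exact_mod_cast hS
  have hG' : (0 : ℝ) < G := by exact_mod_cast hG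
  have hq' : (0 : ℝ) < q := by exact_mod_cast hq
  set γ : ℝ := 1 - Δ / G with hγdef
  have hδ : 1 - γ = Δ / G := by rw [hγdef]; ring
  have hγ : |γ| ≤ 1 := by
    have h1 : (0 : ℝ) ≤ Δ / G := div_nonneg (by exact_mod_cast hΔ0) hG'.le
    have h2 : (Δ : ℝ) / G ≤ 2 := by
      rw [div_le_iff₀ hG']
      exact_mod_cast hΔ
    rw [abs_le]
    constructor <;> linarith
  have hmem : ∀ l : Fin D.length, D[l.val] ∈ D := fun l => List.getElem_mem _
  have hsumR : ∀ f : ℤ × ℤ → ℝ, ∑ l : Fin D.length, f D[l.val] = (D.map f).sum :=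
    fun f => Fin.sum_univ_fun_getElem D f
  have hcast : ∀ j, (∑ l : Fin D.length, ((D[l.val].2 : ℝ) / S) *
      ((T D[l.val].1 (N * N) j : ℝ) / N ^ j)) + (W / S : ℝ) * (eb b : ℝ) ^ j =
        Hf (N * N) D' j / (S * N ^ j) := by
    intro j
    rw [hsumR fun d => ((d.2 : ℝ) / S) * ((T d.1 (N * N) j : ℝ) / N ^ j)]
    have e1 : (D.map fun d => ((d.2 : ℝ) / S) * ((T d.1 (N * N) j : ℝ) / N ^ j)).sum =
        Hf (N * N) D j / (S * N ^ j) := by
      unfold Hf
      generalize D = D''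
      induction D'' with
      | nil => simp
      | cons d D'' ih =>
        rw [List.map_cons, List.sum_cons, ih, List.map_cons, List.sum_cons]
        push_cast
        field_simp
    rw [e1]
    have e2 : Hf (N * N) D' j = W * (eb b * N) ^ j + Hf (N * N) D j := by
      rw [hD', Hf, List.map_cons, List.sum_cons, T_eb]
      rfl
    rw [e2]
    push_cast
    rw [mul_pow]
    field_simp
    ring
  have hyR : ∀ j, ((yf Δ Hn j : ℝ) / ((S : ℝ) ^ (j + 1) * G ^ j * N ^ (j + 1))) =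
      Hf (N * N) D' (j + 1) / (S * N ^ (j + 1)) - (1 - γ) *
        ∑ i ∈ range j, ((yf Δ Hn i : ℝ) / ((S : ℝ) ^ (i + 1) * G ^ i * N ^ (i + 1))) *
          (Hf (N * N) D' (j - i) / (S * N ^ (j - i))) := by
    intro j
    rw [yf_eq Δ Hn j]
    push_cast
    rw [sub_div, hδ, mul_sum, mul_sum, sum_div]
    congr 1
    · rw [hHn]
      push_cast
      field_simp
      ring
    · refine sum_congr rfl fun i hi => ?_
      have hi' := mem_range.1 hi
      obtain ⟨k, rfl⟩ : ∃ k, j = i + 1 + k := ⟨j - (i + 1), by omega⟩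
      have e1 : i + 1 + k - 1 - i = k := by omega
      have e2 : i + 1 + k - i = k + 1 := by omega
      rw [e1, e2]
      simp only [hHn]
      push_cast
      field_simp
      ring
  obtain ⟨Q, hQ, hc⟩ := exists_law_even D.length (fun l => (D[l.val].2 : ℝ) / S)
    (fun l => (D[l.val].1 : ℝ) / N) (fun l => by
      have := ((hall _ (hmem l)).2)
      exact div_nonneg (by exact_mod_cast this) hS'.le)
    (W / S) (div_nonneg (by exact_mod_cast hW) hS'.le) b
    (by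
      rw [hsumR fun d => (d.2 : ℝ) / S]
      have h1 : (D.map fun d => (d.2 : ℝ) / S).sum = ((D.map fun d => d.2).sum : ℤ) / (S : ℝ) := by
        generalize D = D'
        induction D' with
        | nil => simp
        | cons d D' ih =>
          rw [List.map_cons, List.sum_cons, ih, List.map_cons, List.sum_cons]
          push_cast
          ring
      rw [h1, ← add_div, div_eq_one_iff_eq hS'.ne']
      exact_mod_cast hsum)
    (fun l => by
      obtain ⟨⟨h1, h2⟩, -⟩ := hall _ (hmem l)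
      have h1' : -(N : ℝ) ≤ D[l.val].1 := by exact_mod_cast h1
      have h2' : (D[l.val].1 : ℝ) ≤ N := by exact_mod_cast h2
      rw [abs_le, le_div_iff₀ hN', div_le_iff₀ hN']
      constructor <;> linarith)
    hγ (fun l j => (T D[l.val].1 (N * N) j : ℝ) / N ^ j) (fun l => by simp [T])
    (fun l => by simp [T])
    (fun l j => by
      rw [T]
      push_cast
      field_simp
      ring)
    (fun j => (yf Δ Hn j : ℝ) / ((S : ℝ) ^ (j + 1) * G ^ j * N ^ (j + 1)))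
    (fun j _ => by
      simp only [hcast]
      exact hyR j)
  refine ⟨Q, hQ, ?_⟩
  rw [hc]
  have hγ2 : 1 - γ ^ 2 = ((2 * G - Δ) * Δ) / G ^ 2 := by
    rw [hγdef]
    field_simp
    ring
  have hfin : (p : ℝ) / q ≤ (1 - γ ^ 2) *
      ((yf Δ Hn m : ℝ) / ((S : ℝ) ^ (m + 1) * G ^ m * N ^ (m + 1))) := by
    rw [hγ2, div_mul_div_comm, div_le_div_iff₀ hq' (by positivity)]
    have h : (p : ℝ) * (G ^ (m + 2) * (S * N) ^ (m + 1)) ≤
        q * (((2 * G - Δ) * Δ) * yf Δ Hn m) := by exact_mod_cast hmain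
    calc (p : ℝ) * (G ^ 2 * ((S : ℝ) ^ (m + 1) * G ^ m * N ^ (m + 1)))
        = (p : ℝ) * (G ^ (m + 2) * (S * N) ^ (m + 1)) := by rw [mul_pow]; ring
      _ ≤ q * (((2 * G - Δ) * Δ) * yf Δ Hn m) := h
      _ = _ := by ring
  linarith

end HC38bc51.FF
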