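import Mathlib
import Pool.Agent.Work.MP_38bc51_pr.FF.SpecEven
import Pool.Agent.Work.MP_38bc51_pr.LP.Small

/-!
# Two-sided bounds for `p_3, ..., p_6`
-/

namespace HC38bc51.FF

open MeasureTheory HC38bc51.HC

theorem s3_check : chk 10001 1001 1001 601 5577 10000 [(-5533, 1001)] = true := by decide +kernel

theorem s4_check : chkE 10001 1001 1001 696 65506 100000 344 false [(-647, 657)] = true := by
  decide +kernel

theorem s5_check : chk 10001 1001 1001 755 71739 100000 [(2525, 488), (-8173, 513)] = true := by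
  decide +kernel

theorem s6_check :
    chkE 10001 1001 1001 795 76068 100000 206 false [(4537, 387), (-5154, 408)] = true := by
  decide +kernel

theorem pcrit_of_law {k : ℕ} {x : ℝ}
    (h : ∃ Q : Measure (ℤ → Bool), SignLaw k Q ∧ chg Q ≤ (1 - x) / 2) :
    1 / 4 + x / 4 ≤ pcrit k := by
  obtain ⟨Q, hQ, hc⟩ := h
  have h1 := hard hQ
  linarith

theorem p3 : (3894 : ℝ) / 10000 < pcrit 3 := by
  have h := pcrit_of_law (k := 3) (law_of_check (check_of_chk s3_check))
  push_cast at h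
  linarith

theorem p4 : (4137 : ℝ) / 10000 < pcrit 4 := by
  have h := pcrit_of_law (k := 4) (law_of_chkE s4_check)
  push_cast at h
  linarith

theorem p5 : (4293 : ℝ) / 10000 < pcrit 5 := by
  have h := pcrit_of_law (k := 5) (law_of_check (check_of_chk s5_check))
  push_cast at h
  linarith

theorem p6 : (4401 : ℝ) / 10000 < pcrit 6 := by
  have h := pcrit_of_law (k := 6) (law_of_chkE s6_check)
  push_cast at h
  linarith

theorem small : (∀ k : ℕ, 2 ≤ k → k ≤ 6 → pcrit k ≤ 1 / 2 - 3 / (9 * (k : ℝ) + 4)) ∧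
    (3894 : ℝ) / 10000 < pcrit 3 ∧ (4137 : ℝ) / 10000 < pcrit 4 ∧
    (4293 : ℝ) / 10000 < pcrit 5 ∧ (4401 : ℝ) / 10000 < pcrit 6 :=
  ⟨LP.small, p3, p4, p5, p6⟩

end HC38bc51.FF
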